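import Pool.Agent.BB.Combine
import Pool.Agent.BB.Cube

/-!
# AVD: the adversary against a search dag

The narrow partial assignments which are consistent with a suitable narrow partial assignment `τ`
form a set which contains no wide label, and which the search never leaves if every query is
answered in the right way.
-/

set_option autoImplicit false

open scoped BigOperators

namespace AVD

open Finset SDX BB

section
variable {P : Type} [Fintype P] [DecidableEq P]

/-- inclusion of subcubes -/
theorem cube_sub {F F' : Finset P} {a a' : P → Bool}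
    (h : ∀ x : P → Bool, (∀ p ∈ F, x p = a p) → ∀ p ∈ F', x p = a' p) :
    F' ⊆ F ∧ ∀ p ∈ F', a' p = a p := by
  have h1 : ∀ p ∈ F', a' p = a p := fun p hp => (h a (fun _ _ => rfl) p hp).symm
  refine ⟨fun q hq => ?_, h1⟩
  by_contra hqF
  have h2 := h (Function.update a q (!a q)) (fun p hp => by
    rw [Function.update_of_ne]
    rintro rfl
    exact hqF hp) q hq
  rw [Function.update_self, h1 q hq] at h2
  cases h3 : a q <;> rw [h3] at h2 <;> simp at h2

/-- the two halves of a subcube -/
theorem ind_split {F : Finset P} {q : P} (hq : q ∉ F) (a x : P → Bool) :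
    ind F a x = ind (insert q F) (Function.update a q true) x
      + ind (insert q F) (Function.update a q false) x := by
  have h1 : ∀ v, (∀ p ∈ insert q F, x p = Function.update a q v p) ↔
      x q = v ∧ ∀ p ∈ F, x p = a p := by
    intro v
    constructor
    · intro h
      refine ⟨?_, fun p hp => ?_⟩
      · have := h q (mem_insert_self _ _)
        rwa [Function.update_self] at this
      · have := h p (mem_insert_of_mem hp)
        rwa [Function.update_of_ne] at this
        rintro rfl
        exact hq hp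
    · rintro ⟨h2, h3⟩ p hp
      by_cases hpq : p = q
      · rw [hpq, Function.update_self]
        exact h2
      · rw [Function.update_of_ne hpq]
        exact h3 p (mem_of_mem_insert_of_ne hp hpq)
  simp only [ind, h1]
  by_cases h : ∀ p ∈ F, x p = a p
  · cases x q <;> simp [h]
  · simp [h]

/-- the mass is monotone -/
theorem mono {k : ℕ} (mu : (P → Bool) → ℝ)
    (hnn : ∀ (F : Finset P) (a : P → Bool), F.card ≤ k → 0 ≤ ∑ x, ind F a x * mu x)
    {F F' : Finset P} (h : F ⊆ F') (hF' : F'.card ≤ k) (a : P → Bool) :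
    ∑ x, ind F' a x * mu x ≤ ∑ x, ind F a x * mu x := by
  have key : ∀ G : Finset P, Disjoint G F → (F ∪ G).card ≤ k →
      ∑ x, ind (F ∪ G) a x * mu x ≤ ∑ x, ind F a x * mu x := by
    intro G
    induction G using Finset.induction_on with
    | empty =>
      intro _ _
      rw [union_empty]
    | insert q G hq ih =>
      intro hd hk
      rw [disjoint_insert_left] at hd
      have hqFG : q ∉ F ∪ G := by
        rw [mem_union]
        rintro (h1 | h1)
        · exact hd.1 h1
        · exact hq h1
      rw [union_insert] at hk ⊢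
      have h1 := ih hd.2 ((card_le_card (subset_insert _ _)).trans hk)
      refine le_trans ?_ h1
      have h2 : ∀ x, ind (F ∪ G) a x * mu x
          = ind (insert q (F ∪ G)) a x * mu x
            + ind (insert q (F ∪ G)) (Function.update a q (!a q)) x * mu x := by
        intro x
        rw [ind_split hqFG a x, add_mul]
        cases h3 : a q
        · have h4 : Function.update a q false = a := by
            rw [← h3, Function.update_eq_self]
          rw [h4, Bool.not_false, add_comm]
        · have h4 : Function.update a q true = a := by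
            rw [← h3, Function.update_eq_self]
          rw [h4, Bool.not_true]
      simp only [h2]
      rw [sum_add_distrib]
      have := hnn (insert q (F ∪ G)) (Function.update a q (!a q)) hk
      linarith
  have h1 := key (F' \ F) sdiff_disjoint (by rw [union_sdiff_of_subset h]; exact hF')
  rwa [union_sdiff_of_subset h] at h1

end

section
variable {n m b : ℕ}

/-- the point `x` of the small cube agrees with the partial assignment -/
def Agr (e : Fin m × Fin b ↪ Fin n) (z : Fin n → Bool) (ρ : Fin n → Option Bool)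
    (x : Fin m × Fin b → Bool) : Prop :=
  ∀ v, ρ v = none ∨ ρ v = some (xor (Function.extend e x (fun _ => false) v) (z v))

open Classical in
/-- **The adversary.** -/
theorem adversary (e : Fin m × Fin b ↪ Fin n) (hn : n ≤ m * b + 3 * b) (z : Fin n → Bool)
    (mu : (Fin m × Fin b → Bool) → ℝ) (d₀ : ℕ) (hd₀ : 3 * b < d₀) (s : ℝ)
    (hnarrow : ∀ (F : Finset (Fin m × Fin b)) (a : Fin m × Fin b → Bool), F.card ≤ 2 * d₀ + 1 →
      ∑ x, ind F a x * mu x = 0 ∨ 2 ^ (m * b) ≤ 2 ^ F.card * ∑ x, ind F a x * mu x)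
    (hkill : ∀ 𝓛 : Finset (Finset (Fin m × Fin b) × (Fin m × Fin b → Bool)),
      (𝓛.card : ℝ) ≤ s → (∀ l ∈ 𝓛, d₀ ≤ l.1.card + 3 * b) →
      ∃ (F : Finset (Fin m × Fin b)) (a : Fin m × Fin b → Bool), F.card ≤ d₀ ∧
        0 < ∑ x, ind F a x * mu x ∧ ∀ l ∈ 𝓛, ∃ q ∈ l.1, q ∈ F ∧ l.2 q ≠ a q)
    (𝓛 : Finset (Fin n → Option Bool)) (h𝓛 : (𝓛.card : ℝ) ≤ s) :
    ∃ 𝓖 : Set (Fin n → Option Bool), (fun _ => none) ∈ 𝓖 ∧
      (∀ ρ ∈ 𝓖, (dom ρ).card ≤ d₀ ∧
        2 ^ (m * b) ≤ 2 ^ d₀ * ∑ x, if Agr e z ρ x then mu x else 0) ∧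
      ∀ ρ ∈ 𝓖, ∀ v, ∃ a : Bool, ∀ w ∈ 𝓛,
        (∀ u, w u = none ∨ w u = Function.update ρ v (some a) u) → w ∈ 𝓖 := by
  have hnn : ∀ (F : Finset (Fin m × Fin b)) (a : Fin m × Fin b → Bool), F.card ≤ 2 * d₀ + 1 →
      0 ≤ ∑ x, ind F a x * mu x := by
    intro F a hF
    rcases hnarrow F a hF with h | h
    · exact h.ge
    · by_contra hcon
      push Not at hcon
      have h1 : (0 : ℝ) < 2 ^ F.card := by positivity
      have h2 : (0 : ℝ) < 2 ^ (m * b) := by positivity
      have := mul_neg_of_pos_of_neg h1 hcon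
      linarith
  -- the cubes of the labels
  have hcube : ∀ w : Fin n → Option Bool, ∃ l : Finset (Fin m × Fin b) × (Fin m × Fin b → Bool),
      (∃ x, Agr e z w x) → (dom w).card ≤ l.1.card + 3 * b ∧ l.1.card ≤ (dom w).card ∧
        ∀ x, Agr e z w x ↔ ∀ p ∈ l.1, x p = l.2 p := by
    intro w
    rcases agree_cube e hn z w with h | ⟨F, a, h1, h2, h3⟩
    · exact ⟨(∅, fun _ => false), fun ⟨x, hx⟩ => absurd hx (h x)⟩
    · exact ⟨(F, a), fun _ => ⟨h1, h2, h3⟩⟩
  choose l hl using hcube
  obtain ⟨F₀, a₀, hF₀, hpos, hk⟩ := hkill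
    ((𝓛.filter fun w => d₀ ≤ (dom w).card ∧ ∃ x, Agr e z w x).image l)
    (by
      refine le_trans ?_ h𝓛
      exact_mod_cast card_image_le.trans (card_le_card (filter_subset _ _)))
    (by
      intro l' hl'
      obtain ⟨w, hw, rfl⟩ := mem_image.1 hl'
      obtain ⟨-, hw1, hw2⟩ := mem_filter.1 hw
      exact hw1.trans (hl w hw2).1)
  -- the mass together with `τ`
  let mt : (Fin n → Option Bool) → ℝ := fun ρ =>
    ∑ x, if Agr e z ρ x ∧ ∀ q ∈ F₀, x q = a₀ q then mu x else 0
  have hne : ∀ ρ, 0 < mt ρ → ∃ x, Agr e z ρ x ∧ ∀ q ∈ F₀, x q = a₀ q := by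
    intro ρ hρ
    by_contra hcon
    push Not at hcon
    have h1 : mt ρ = 0 := by
      refine sum_eq_zero fun x _ => if_neg fun h => ?_
      obtain ⟨q, hq, hne⟩ := hcon x h.1
      exact hne (h.2 q hq)
    linarith
  have hrep : ∀ ρ, 0 < mt ρ → ∃ (F : Finset (Fin m × Fin b)) (a : Fin m × Fin b → Bool),
      F.card ≤ (dom ρ).card + d₀ ∧
      ∀ x, (Agr e z ρ x ∧ ∀ q ∈ F₀, x q = a₀ q) ↔ ∀ p ∈ F, x p = a p := by
    intro ρ hρ
    obtain ⟨x₀, hx1, hx2⟩ := hne ρ hρ
    obtain ⟨h1, h2, h3⟩ := hl ρ ⟨x₀, hx1⟩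
    refine ⟨(l ρ).1 ∪ F₀, x₀, (card_union_le _ _).trans (by omega), fun x => ?_⟩
    rw [h3]
    constructor
    · rintro ⟨h4, h5⟩ p hp
      rcases mem_union.1 hp with h | h
      · rw [h4 p h, (h3 x₀).1 hx1 p h]
      · rw [h5 p h, hx2 p h]
    · intro h
      refine ⟨fun p hp => ?_, fun p hp => ?_⟩
      · rw [h p (mem_union_left _ hp), (h3 x₀).1 hx1 p hp]
      · rw [h p (mem_union_right _ hp), hx2 p hp]
  have hsum : ∀ (F : Finset (Fin m × Fin b)) (a : Fin m × Fin b → Bool)
      (C : (Fin m × Fin b → Bool) → Prop) [DecidablePred C],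
      (∀ x, C x ↔ ∀ p ∈ F, x p = a p) →
      ∑ x, ind F a x * mu x = ∑ x, if C x then mu x else 0 := by
    intro F a C _ hC
    refine sum_congr rfl fun x _ => ?_
    simp only [ind, hC x]
    split_ifs <;> simp
  refine ⟨{ρ | (dom ρ).card < d₀ ∧ 0 < mt ρ}, ?_, ?_, ?_⟩
  · have h1 : dom (fun _ : Fin n => (none : Option Bool)) = ∅ := by simp [dom]
    refine ⟨by rw [h1, card_empty]; omega, ?_⟩
    refine lt_of_lt_of_eq hpos ?_
    refine hsum F₀ a₀ (fun x => Agr e z (fun _ => none) x ∧ ∀ q ∈ F₀, x q = a₀ q) fun x => ?_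
    exact ⟨fun h => h.2, fun h => ⟨fun v => Or.inl rfl, h⟩⟩
  · rintro ρ ⟨hρ1, hρ2⟩
    refine ⟨hρ1.le, ?_⟩
    obtain ⟨x₀, hx1, hx2⟩ := hne ρ hρ2
    obtain ⟨h1, h2, h3⟩ := hl ρ ⟨x₀, hx1⟩
    obtain ⟨F, a, hF, hFa⟩ := hrep ρ hρ2
    have h4 := hsum F a _ hFa
    have h5 := hsum (l ρ).1 (l ρ).2 _ h3
    have h6 : (l ρ).1 ⊆ F ∧ ∀ p ∈ (l ρ).1, (l ρ).2 p = a p :=
      cube_sub fun x hx => (h3 x).1 ((hFa x).2 hx).1
    have h7 := mono mu hnn h6.1 (by omega) a
    have h8 : ∑ x, ind (l ρ).1 a x * mu x = ∑ x, ind (l ρ).1 (l ρ).2 x * mu x := by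
      refine sum_congr rfl fun x _ => ?_
      congr 1
      simp only [ind]
      have : (∀ i ∈ (l ρ).1, x i = a i) ↔ ∀ i ∈ (l ρ).1, x i = (l ρ).2 i := by
        refine forall₂_congr fun p hp => ?_
        rw [h6.2 p hp]
      simp only [this]
    have h9 : 0 < ∑ x, ind (l ρ).1 (l ρ).2 x * mu x := by
      have h10 : mt ρ = ∑ x, ind F a x * mu x := h4.symm
      linarith
    rcases hnarrow (l ρ).1 (l ρ).2 (by omega) with h10 | h10
    · linarith
    · rw [← h5]
      refine h10.trans (mul_le_mul_of_nonneg_right ?_ h9.le)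
      exact pow_le_pow_right₀ (by norm_num) (by omega)
  · rintro ρ ⟨hρ1, hρ2⟩ v
    -- the answer
    obtain ⟨a, ha⟩ : ∃ a : Bool, 0 < mt (Function.update ρ v (some a)) := by
      cases hv : ρ v with
      | some a =>
        refine ⟨a, ?_⟩
        rw [← hv, Function.update_eq_self]
        exact hρ2
      | none =>
        by_contra hcon
        push Not at hcon
        have h1 := hcon true
        have h2 := hcon false
        have h3 : mt ρ = mt (Function.update ρ v (some true))
            + mt (Function.update ρ v (some false)) := by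
          rw [← sum_add_distrib]
          refine sum_congr rfl fun x _ => ?_
          have h4 : ∀ c : Bool, Agr e z (Function.update ρ v (some c)) x ↔
              Agr e z ρ x ∧ xor (Function.extend e x (fun _ => false) v) (z v) = c := by
            intro c
            constructor
            · intro h
              refine ⟨fun u => ?_, ?_⟩
              · by_cases hu : u = v
                · left
                  rw [hu, hv]
                · have := h u
                  rwa [Function.update_of_ne hu] at this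
              · have := h v
                rw [Function.update_self] at this
                rcases this with h5 | h5
                · exact absurd h5 (by simp)
                · exact (Option.some.inj h5).symm
            · rintro ⟨h5, h6⟩ u
              by_cases hu : u = v
              · right
                rw [hu, Function.update_self, h6]
              · rw [Function.update_of_ne hu]
                exact h5 u
          simp only [h4]
          cases xor (Function.extend e x (fun _ => false) v) (z v) <;> simp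
        linarith
    refine ⟨a, fun w hw hsub => ?_⟩
    set ρ' := Function.update ρ v (some a) with hρ'
    have hdom : (dom ρ').card ≤ d₀ := by
      have h1 : dom ρ' ⊆ insert v (dom ρ) := by
        intro u hu
        by_cases huv : u = v
        · rw [huv]
          exact mem_insert_self _ _
        · rw [mem_dom, hρ', Function.update_of_ne huv] at hu
          exact mem_insert_of_mem (mem_dom.2 hu)
      have := (card_le_card h1).trans (card_insert_le _ _)
      omega
    have hagr : ∀ x, Agr e z ρ' x → Agr e z w x := by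
      intro x hx u
      rcases hsub u with h | h
      · exact Or.inl h
      · rw [h]
        exact hx u
    obtain ⟨x₀, hx1, hx2⟩ := hne ρ' ha
    have hwx : ∃ x, Agr e z w x := ⟨x₀, hagr x₀ hx1⟩
    obtain ⟨h1, h2, h3⟩ := hl w hwx
    -- the label is narrow
    have hnar : (dom w).card < d₀ := by
      by_contra hcon
      push Not at hcon
      obtain ⟨q, hq1, hq2, hq3⟩ := hk (l w) (mem_image_of_mem l (mem_filter.2 ⟨hw, hcon, hwx⟩))
      apply hq3
      rw [← hx2 q hq2]
      exact ((h3 x₀).1 (hagr x₀ hx1) q hq1).symm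
    refine ⟨hnar, ?_⟩
    obtain ⟨F, a', hF, hFa⟩ := hrep ρ' ha
    have h4 := hsum F a' _ hFa
    -- the cube of `w` and `τ`
    have h5 : ∀ x, (Agr e z w x ∧ ∀ q ∈ F₀, x q = a₀ q) ↔ ∀ p ∈ (l w).1 ∪ F₀, x p = x₀ p := by
      intro x
      rw [h3]
      constructor
      · rintro ⟨h6, h7⟩ p hp
        rcases mem_union.1 hp with h | h
        · rw [h6 p h, (h3 x₀).1 (hagr x₀ hx1) p h]
        · rw [h7 p h, hx2 p h]
      · intro h
        refine ⟨fun p hp => ?_, fun p hp => ?_⟩
        · rw [h p (mem_union_left _ hp), (h3 x₀).1 (hagr x₀ hx1) p hp]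
        · rw [h p (mem_union_right _ hp), hx2 p hp]
    have h6 := hsum ((l w).1 ∪ F₀) x₀ _ h5
    have h7 : (l w).1 ∪ F₀ ⊆ F ∧ ∀ p ∈ (l w).1 ∪ F₀, x₀ p = a' p :=
      cube_sub fun x hx => (h5 x).1 ⟨hagr x ((hFa x).2 hx).1, ((hFa x).2 hx).2⟩
    have h8 := mono mu hnn h7.1 (by omega) a'
    have h9 : ∑ x, ind ((l w).1 ∪ F₀) a' x * mu x = ∑ x, ind ((l w).1 ∪ F₀) x₀ x * mu x := by
      refine sum_congr rfl fun x _ => ?_
      congr 1
      simp only [ind]
      have : (∀ i ∈ (l w).1 ∪ F₀, x i = a' i) ↔ ∀ i ∈ (l w).1 ∪ F₀, x i = x₀ i := by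
        refine forall₂_congr fun p hp => ?_
        rw [h7.2 p hp]
      simp only [this]
    have h10 : mt ρ' = ∑ x, ind F a' x * mu x := h4.symm
    have h11 : mt w = ∑ x, ind ((l w).1 ∪ F₀) x₀ x * mu x := h6.symm
    rw [h11]
    linarith

end

end AVD
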