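import Pool.Agent.AV.Sep
import Pool.Agent.BB.Core6

/-!
# AVD: locally consistent partial assignments

A large set of variables which are far from each other and from a small set `Z` contains at most
`2 |Z|` variables which are determined by the values on `Z`. So a small family of wide partial
assignments can be contradicted by a consistent partial assignment with few variables.
-/

set_option autoImplicit false

open scoped BigOperators

namespace AVD

open Finset SDX SDX.h8 SDX.h71 BB AV

section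
variable {ι κ : Type} [Fintype ι] [DecidableEq ι] [Fintype κ] [DecidableEq κ]

/-- each variable of a sum of few equations which is far from the other ones has three private
equations -/
theorem three_mul_le {A : κ → Finset ι} {s : ℕ} (hA : ∀ e, (A e).card = 3) (hexp : Expand A s)
    {W Z : Finset ι} (hW : ∀ v ∈ W, ∀ w ∈ W, w ∈ ball A 5 v → w = v)
    (hZ : ∀ v ∈ W, ∀ w ∈ Z, w ∉ ball A 5 v) {C : Finset κ} (hCs : C.card ≤ s)
    (hCW : bsum A C ⊆ W ∪ Z) : 3 * (bsum A C ∩ W).card ≤ C.card := by
  classical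
  -- variables near to `v` have even degree
  have heven : ∀ v ∈ bsum A C ∩ W, ∀ u ∈ ball A 2 v, u ≠ v → ∀ e ∈ C, u ∈ A e →
      ∃ e' ∈ C, e' ≠ e ∧ u ∈ A e' := by
    intro v hv u hu huv e he hue
    rw [mem_inter] at hv
    by_contra hcon
    push Not at hcon
    have h1 : (C.filter fun j => u ∈ A j) = {e} := by
      ext j
      rw [mem_filter, mem_singleton]
      constructor
      · rintro ⟨hj, huj⟩
        by_contra hne
        exact hcon j hj hne huj
      · rintro rfl
        exact ⟨he, hue⟩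
    have h2 : u ∈ bsum A C := by
      rw [mem_bsum, h1, card_singleton]
      exact odd_one
    rcases mem_union.1 (hCW h2) with h3 | h3
    · exact huv (hW v hv.2 u h3 (ball_mono (by norm_num) hu))
    · exact hZ v hv.2 u h3 (ball_mono (by norm_num) hu)
  let P : ι → Finset κ := fun v => C.filter fun e => ∃ w ∈ ball A 2 v, w ∈ A e
  have hP : ∀ v ∈ bsum A C ∩ W, 3 ≤ (P v).card := by
    intro v hv
    have h1 : (C.filter fun j => v ∈ A j).Nonempty := by
      rw [← card_pos]
      exact (mem_bsum.1 (mem_inter.1 hv).1).pos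
    obtain ⟨j₁, hj₁⟩ := h1
    rw [mem_filter] at hj₁
    obtain ⟨hj₁, hvj₁⟩ := hj₁
    -- the other variables
    have h2 : ((A j₁).erase v).card = 2 := by rw [card_erase_of_mem hvj₁, hA]
    obtain ⟨u₁, u₂, hu12, hu⟩ := card_eq_two.1 h2
    have hu₁ : u₁ ∈ (A j₁).erase v := by rw [hu]; exact mem_insert_self _ _
    have hu₂ : u₂ ∈ (A j₁).erase v := by
      rw [hu]
      exact mem_insert_of_mem (mem_singleton_self _)
    rw [mem_erase] at hu₁ hu₂
    have hb₁ : u₁ ∈ ball A 1 v := mem_ball_one.2 (mem_nb.2 (Or.inr ⟨j₁, hvj₁, hu₁.2⟩))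
    have hb₂ : u₂ ∈ ball A 1 v := mem_ball_one.2 (mem_nb.2 (Or.inr ⟨j₁, hvj₁, hu₂.2⟩))
    obtain ⟨j₂, hj₂, hj₂₁, huj₂⟩ := heven v hv u₁ (ball_mono (by norm_num) hb₁) hu₁.1 j₁ hj₁ hu₁.2
    obtain ⟨j₃, hj₃, hj₃₁, huj₃⟩ := heven v hv u₂ (ball_mono (by norm_num) hb₂) hu₂.1 j₁ hj₁ hu₂.2
    have hPmem : ∀ j ∈ C, ∀ w ∈ ball A 2 v, w ∈ A j → j ∈ P v := by
      intro j hj w hw hwj
      rw [mem_filter]
      exact ⟨hj, w, hw, hwj⟩
    have hP₁ : j₁ ∈ P v := hPmem j₁ hj₁ v (self_mem_ball A 2 v) hvj₁
    have hP₂ : j₂ ∈ P v := hPmem j₂ hj₂ u₁ (ball_mono (by norm_num) hb₁) huj₂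
    have hP₃ : j₃ ∈ P v := hPmem j₃ hj₃ u₂ (ball_mono (by norm_num) hb₂) huj₃
    by_cases h23 : j₂ = j₃
    · subst h23
      -- the third variable of `j₂`
      have h3 : ((A j₂).erase u₁).card = 2 := by rw [card_erase_of_mem huj₂, hA]
      have h4 : (((A j₂).erase u₁).erase u₂).card = 1 := by
        rw [card_erase_of_mem (mem_erase.2 ⟨hu12.symm, huj₃⟩), h3]
      obtain ⟨w, hw⟩ := card_eq_one.1 h4
      have hwm : w ∈ ((A j₂).erase u₁).erase u₂ := by rw [hw]; exact mem_singleton_self _
      rw [mem_erase, mem_erase] at hwm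
      obtain ⟨hwu₂, hwu₁, hwj₂⟩ := hwm
      have hA₁ : ∀ x, x ∈ A j₁ ↔ x = v ∨ x = u₁ ∨ x = u₂ := by
        intro x
        have h5 : x ∈ A j₁ ↔ x = v ∨ x ∈ (A j₁).erase v := by
          rw [mem_erase]
          constructor
          · intro h
            by_cases hx : x = v
            · exact Or.inl hx
            · exact Or.inr ⟨hx, h⟩
          · rintro (h | h)
            · rw [h]
              exact hvj₁
            · exact h.2
        rw [h5, hu, mem_insert, mem_singleton]
      have hA₂ : ∀ x, x ∈ A j₂ ↔ x = w ∨ x = u₁ ∨ x = u₂ := by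
        intro x
        have h5 : x ∈ ((A j₂).erase u₁).erase u₂ ↔ x = w := by rw [hw, mem_singleton]
        rw [mem_erase, mem_erase] at h5
        constructor
        · intro h
          by_cases h6 : x = u₁
          · exact Or.inr (Or.inl h6)
          · by_cases h7 : x = u₂
            · exact Or.inr (Or.inr h7)
            · exact Or.inl (h5.1 ⟨h7, h6, h⟩)
        · rintro (h | h | h)
          · rw [h]
            exact hwj₂
          · rw [h]
            exact huj₂
          · rw [h]
            exact huj₃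
      have hwv : w ≠ v := by
        rintro rfl
        have h5 : A j₁ = A j₂ := by
          ext x
          rw [hA₁, hA₂]
        have h6 : bsum A {j₁, j₂} = ∅ := by
          ext x
          rw [mem_bsum]
          have h7 : (({j₁, j₂} : Finset κ).filter fun j => x ∈ A j).card
              = if x ∈ A j₁ then 2 else 0 := by
            split_ifs with hx
            · have h8 : (({j₁, j₂} : Finset κ).filter fun j => x ∈ A j) = {j₁, j₂} := by
                rw [filter_eq_self]
                intro j hj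
                rw [mem_insert, mem_singleton] at hj
                rcases hj with rfl | rfl
                · exact hx
                · rw [← h5]
                  exact hx
              rw [h8, card_pair hj₂₁.symm]
            · rw [card_eq_zero, filter_eq_empty_iff]
              intro j hj
              rw [mem_insert, mem_singleton] at hj
              rcases hj with rfl | rfl
              · exact hx
              · rw [← h5]
                exact hx
          rw [h7]
          split_ifs <;> simp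
        have h7 : ({j₁, j₂} : Finset κ) ⊆ C := by
          intro j hj
          rw [mem_insert, mem_singleton] at hj
          rcases hj with rfl | rfl
          · exact hj₁
          · exact hj₂
        have h8 := hexp {j₁, j₂} ((card_le_card h7).trans hCs)
        rw [h6, card_pair hj₂₁.symm, card_empty] at h8
        omega
      have hbw : w ∈ ball A 2 v :=
        mem_ball_succ.2 ⟨u₁, hb₁, mem_nb.2 (Or.inr ⟨j₂, huj₂, hwj₂⟩)⟩
      obtain ⟨j₄, hj₄, hj₄₂, hwj₄⟩ := heven v hv w hbw hwv j₂ hj₂ hwj₂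
      have hj₄₁ : j₄ ≠ j₁ := by
        rintro rfl
        rcases (hA₁ w).1 hwj₄ with h | h | h
        · exact hwv h
        · exact hwu₁ h
        · exact hwu₂ h
      have hP₄ : j₄ ∈ P v := hPmem j₄ hj₄ w hbw hwj₄
      have h9 : ({j₁, j₂, j₄} : Finset κ) ⊆ P v := by
        intro j hj
        rw [mem_insert, mem_insert, mem_singleton] at hj
        rcases hj with rfl | rfl | rfl
        · exact hP₁
        · exact hP₂
        · exact hP₄
      have h10 : ({j₁, j₂, j₄} : Finset κ).card = 3 :=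
        card_eq_three.2 ⟨j₁, j₂, j₄, hj₂₁.symm, hj₄₁.symm, hj₄₂.symm, rfl⟩
      rw [← h10]
      exact card_le_card h9
    · have h9 : ({j₁, j₂, j₃} : Finset κ) ⊆ P v := by
        intro j hj
        rw [mem_insert, mem_insert, mem_singleton] at hj
        rcases hj with rfl | rfl | rfl
        · exact hP₁
        · exact hP₂
        · exact hP₃
      have h10 : ({j₁, j₂, j₃} : Finset κ).card = 3 :=
        card_eq_three.2 ⟨j₁, j₂, j₃, hj₂₁.symm, hj₃₁.symm, h23, rfl⟩
      rw [← h10]
      exact card_le_card h9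
  have hdisj : ∀ v ∈ bsum A C ∩ W, ∀ v' ∈ bsum A C ∩ W, v ≠ v' → Disjoint (P v) (P v') := by
    intro v hv v' hv' hne
    rw [disjoint_left]
    intro e he he'
    rw [mem_filter] at he he'
    obtain ⟨-, w, hw, hwe⟩ := he
    obtain ⟨-, w', hw', hwe'⟩ := he'
    have h1 : w' ∈ ball A (2 + 1) v :=
      ball_add hw (mem_ball_one.2 (mem_nb.2 (Or.inr ⟨e, hwe, hwe'⟩)))
    have h2 : v' ∈ ball A (2 + 1 + 2) v := ball_add h1 (ball_symm hw')
    exact hne (hW v (mem_inter.1 hv).2 v' (mem_inter.1 hv').2 h2).symm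
  calc 3 * (bsum A C ∩ W).card = ∑ _v ∈ bsum A C ∩ W, 3 := by
        rw [sum_const, smul_eq_mul, mul_comm]
    _ ≤ ∑ v ∈ bsum A C ∩ W, (P v).card := sum_le_sum hP
    _ = ((bsum A C ∩ W).biUnion P).card := (card_biUnion hdisj).symm
    _ ≤ C.card := card_le_card (biUnion_subset.2 fun v _ => filter_subset _ _)

/-- at most `2 |Z|` variables are determined by `Z` -/
theorem determined_le {A : κ → Finset ι} {r : ℕ} (hA : ∀ e, (A e).card = 3)
    (hexp : Expand A (2 * r)) {W Z : Finset ι} (hW : ∀ v ∈ W, ∀ w ∈ W, w ∈ ball A 5 v → w = v)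
    (hZ : ∀ v ∈ W, ∀ w ∈ Z, w ∉ ball A 5 v) (hr : 4 * Z.card + 2 ≤ r) {N : Finset ι} (hN : N ⊆ W)
    (hdet : ∀ v ∈ N, ∃ C : Finset κ, C.card ≤ r ∧ v ∈ bsum A C ∧ bsum A C ⊆ insert v Z) :
    N.card ≤ 2 * Z.card := by
  by_contra hcon
  push Not at hcon
  obtain ⟨N', hN', hcard⟩ := exists_subset_card_eq (show 2 * Z.card + 1 ≤ N.card by omega)
  have hWZ : Disjoint W Z := by
    rw [disjoint_left]
    intro v hv hv'
    exact hZ v hv v hv' (self_mem_ball A 5 v)
  have key : ∀ N₁ : Finset ι, N₁ ⊆ N' → ∃ C : Finset κ, C.card ≤ 2 * (N₁.card + Z.card) ∧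
      bsum A C ∩ W = N₁ ∧ bsum A C ⊆ W ∪ Z := by
    intro N₁
    induction N₁ using Finset.induction_on with
    | empty =>
      intro _
      refine ⟨∅, by simp, ?_, ?_⟩
      · rw [bsum_empty, empty_inter]
      · rw [bsum_empty]
        exact empty_subset _
    | insert v N₁ hv ih =>
      intro hsub
      obtain ⟨C, hC1, hC2, hC3⟩ := ih ((subset_insert _ _).trans hsub)
      have hvN : v ∈ N := hN' (hsub (mem_insert_self _ _))
      have hvW : v ∈ W := hN hvN
      obtain ⟨C', hC'1, hC'2, hC'3⟩ := hdet v hvN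
      have hcC' : C'.card ≤ 2 * (Z.card + 1) := by
        have h1 := hexp C' (by omega)
        have h2 := (card_le_card hC'3).trans (card_insert_le _ _)
        omega
      have hN₁ : N₁.card + 1 ≤ 2 * Z.card + 1 := by
        rw [← hcard, ← card_insert_of_notMem hv]
        exact card_le_card hsub
      have hsum : (symmDiff C C').card ≤ 2 * r := by
        have := card_symmDiff_le C C'
        omega
      have hin : bsum A (symmDiff C C') ∩ W = insert v N₁ := by
        rw [bsum_symmDiff]
        ext w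
        rw [mem_inter, mem_symmDiff, mem_insert, ← hC2, mem_inter]
        have hvC : v ∉ bsum A C := fun h => hv (by rw [← hC2]; exact mem_inter.2 ⟨h, hvW⟩)
        by_cases hwv : w = v
        · rw [hwv]
          simp [hvC, hC'2, hvW]
        · have hwC' : w ∈ W → w ∉ bsum A C' := by
            intro hwW hw
            rcases mem_insert.1 (hC'3 hw) with h | h
            · exact hwv h
            · exact disjoint_left.1 hWZ hwW h
          constructor
          · rintro ⟨h | h, hw⟩
            · exact Or.inr ⟨h.1, hw⟩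
            · exact absurd h.1 (hwC' hw)
          · rintro (h | h)
            · exact absurd h hwv
            · exact ⟨Or.inl ⟨h.1, hwC' h.2⟩, h.2⟩
      have hsubWZ : bsum A (symmDiff C C') ⊆ W ∪ Z := by
        rw [bsum_symmDiff]
        intro w hw
        rcases mem_symmDiff.1 hw with h | h
        · exact hC3 h.1
        · rcases mem_insert.1 (hC'3 h.1) with h' | h'
          · rw [h']
            exact mem_union_left _ hvW
          · exact mem_union_right _ h'
      refine ⟨symmDiff C C', ?_, hin, hsubWZ⟩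
      refine (hexp _ hsum).trans (Nat.mul_le_mul_left _ ?_)
      have h5 : bsum A (symmDiff C C') ⊆ (bsum A (symmDiff C C') ∩ W) ∪ Z := by
        intro w hw
        rcases mem_union.1 (hsubWZ hw) with h | h
        · exact mem_union_left _ (mem_inter.2 ⟨hw, h⟩)
        · exact mem_union_right _ h
      rw [hin] at h5
      exact (card_le_card h5).trans (card_union_le _ _)
  obtain ⟨C, hC1, hC2, hC3⟩ := key N' Subset.rfl
  have h1 := three_mul_le hA hexp hW hZ (C := C) (by omega) hC3
  rw [hC2, hcard] at h1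
  rw [hcard] at hC1
  omega

end

/-- the selected positions -/
def sel {m b : ℕ} (S : Fin m → Fin b) (F : Finset (Fin m × Fin b)) : Finset (Fin m) :=
  univ.filter fun j => (j, S j) ∈ F

theorem mem_sel {m b : ℕ} {S : Fin m → Fin b} {F : Finset (Fin m × Fin b)} {j : Fin m} :
    j ∈ sel S F ↔ (j, S j) ∈ F := by
  rw [sel, mem_filter]
  exact ⟨fun h => h.2, fun h => ⟨mem_univ _, h⟩⟩

theorem card_sel {m b : ℕ} (S : Fin m → Fin b) (F : Finset (Fin m × Fin b)) :
    (sel S F).card ≤ F.card := by
  have hinj : Function.Injective (fun j : Fin m => (j, S j)) := fun i j h => by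
    simpa using congrArg Prod.fst h
  rw [← card_map ⟨fun j => (j, S j), hinj⟩]
  refine card_le_card fun f hf => ?_
  obtain ⟨j, hj, rfl⟩ := mem_map.1 hf
  exact mem_sel.1 hj

/-- the mass of a subcube -/
theorem mass_formula {m b : ℕ} (D : (Fin m → Bool) → ℝ) (S : Fin m → Fin b)
    (F : Finset (Fin m × Fin b)) (a : Fin m × Fin b → Bool) :
    2 ^ F.card * ∑ x, ind F a x * D (rs S x)
      = 2 ^ (m * b) * ∑ B ∈ (sel S F).powerset, coef B D * chr B (rs S a) := by
  have h1 := mass_cube D S F a
  change 2 ^ F.card * 2 ^ m * ∑ x, ind F a x * D (rs S x)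
      = 2 ^ (sel S F).card * 2 ^ (m * b) * ∑ y, D y * ind (sel S F) (rs S a) y at h1
  rw [sum_mul_eq D, Fintype.card_fin] at h1
  simp only [coef_ind] at h1
  have h2 : ∑ B, coef B D * (if B ⊆ sel S F then chr B (rs S a) / 2 ^ (sel S F).card else 0)
      = (∑ B ∈ (sel S F).powerset, coef B D * chr B (rs S a)) / 2 ^ (sel S F).card := by
    rw [sum_div, ← sum_filter_add_sum_filter_not univ (fun B => B ⊆ sel S F)]
    have h3 : ∑ B ∈ univ.filter (fun B => ¬ B ⊆ sel S F),
        coef B D * (if B ⊆ sel S F then chr B (rs S a) / 2 ^ (sel S F).card else 0) = 0 :=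
      sum_eq_zero fun B hB => by rw [if_neg (mem_filter.1 hB).2, mul_zero]
    rw [h3, add_zero]
    have h4 : univ.filter (fun B => B ⊆ sel S F) = (sel S F).powerset := by
      ext B
      rw [mem_filter, mem_powerset]
      exact ⟨fun h => h.2, fun h => ⟨mem_univ _, h⟩⟩
    rw [h4]
    refine sum_congr rfl fun B hB => ?_
    rw [if_pos (mem_powerset.1 hB), mul_div_assoc]
  rw [h2] at h1
  have h5 : (0 : ℝ) < 2 ^ m := by positivity
  refine mul_left_cancel₀ h5.ne' ?_
  have h6 : (2 : ℝ) ^ (sel S F).card ≠ 0 := by positivity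
  calc (2 : ℝ) ^ m * (2 ^ F.card * ∑ x, ind F a x * D (rs S x))
      = 2 ^ F.card * 2 ^ m * ∑ x, ind F a x * D (rs S x) := by ring
    _ = _ := h1
    _ = _ := by
        field_simp

/-- the pseudo-density of an expanding XOR instance, its coefficients are `0`, `1` or `-1` -/
theorem xor_pd9 {m M t w d : ℕ} (A : Fin M → Finset (Fin m)) (s : Fin M → Bool)
    (ht : 1 ≤ t) (hd : 2 * d ≤ w) (hA : ∀ e, (A e).card = 3)
    (h1 : ∀ C : Finset (Fin M), C.Nonempty → C.card ≤ 2 * t → (LIFT.odd A C).Nonempty)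
    (h2 : ∀ C : Finset (Fin M), t < C.card → C.card ≤ 2 * t → w < (LIFT.odd A C).card) :
    ∃ D : (Fin m → Bool) → ℝ, (∀ B, |SDX.coef B D| ≤ 1) ∧ (∀ y, |D y| ≤ 2 ^ m) ∧
      SDX.coef ∅ D = 1 ∧
      (∀ e B, B.card + 3 ≤ w → SDX.coef (symmDiff B (A e)) D = SDX.sg (s e) * SDX.coef B D) ∧
      (∀ B, coef B D ≠ 0 → ∃ C : Finset (Fin M), C.card ≤ t ∧ bsum A C = B) ∧
      (∀ B, ∃ k : ℤ, coef B D = k) ∧
      ∀ g ∈ SDX.Deg (Fin m) d, 0 ≤ ∑ y, D y * g y ^ 2 := by
  have hgap : ∀ C : Finset (Fin M), C.card ≤ 2 * t → (SDX.bsum A C).card ≤ w → C.card ≤ t := by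
    intro C hC h
    by_contra hcon
    have h3 := h2 C (not_le.1 hcon) hC
    change w < (SDX.bsum A C).card at h3
    omega
  have hG : SDX.h8.Good A t d :=
    { inj := fun J hJ hne => h1 J hne hJ
      gap := fun J hJ h => hgap J hJ (h.trans hd) }
  refine ⟨SDX.xpd t A s, SDX.xpd_coef_le hG s, fun y => ?_, SDX.xpd_coef_empty hG s,
    fun e B hB => LIFT.h8.xpd_inv s ht hA hG hgap e B hB,
    fun B hB => SDX.h8.exists_of_coef_xpd hB, fun B => ?_, fun g hg => SDX.xpd_sq hG s hg⟩
  · have := SDX.xpd_bd hG s y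
    rwa [Fintype.card_fin] at this
  · by_cases h : coef B (SDX.xpd t A s) = 0
    · exact ⟨0, by rw [h, Int.cast_zero]⟩
    · obtain ⟨J, hJ, hα⟩ := exists_of_coef_xpd h
      refine ⟨∏ j ∈ J, if s j then -1 else 1, ?_⟩
      rw [coef_xpd_of hG s hJ hα, chr, Int.cast_prod]
      refine prod_congr rfl fun j _ => ?_
      rw [sg]
      split_ifs <;> simp

section
variable {m b : ℕ}

/-- the value of the sum in `mass_formula` -/
theorem mass_int (D : (Fin m → Bool) → ℝ) (hint : ∀ B, ∃ k : ℤ, coef B D = k)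
    (W : Finset (Fin m)) (y : Fin m → Bool) :
    ∃ k : ℤ, ∑ B ∈ W.powerset, coef B D * chr B y = k := by
  choose k hk using hint
  refine ⟨∑ B ∈ W.powerset, k B * ∏ i ∈ B, if y i then -1 else 1, ?_⟩
  rw [Int.cast_sum]
  refine sum_congr rfl fun B _ => ?_
  rw [Int.cast_mul, Int.cast_prod, hk B, chr]
  congr 1
  refine prod_congr rfl fun j _ => ?_
  rw [sg]
  split_ifs <;> simp

theorem mass_nonneg {d : ℕ} (D : (Fin m → Bool) → ℝ)
    (hpd : ∀ g ∈ Deg (Fin m) d, 0 ≤ ∑ y, D y * g y ^ 2) (S : Fin m → Fin b)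
    (F : Finset (Fin m × Fin b)) (hF : F.card ≤ d) (a : Fin m × Fin b → Bool) :
    0 ≤ ∑ x, ind F a x * D (rs S x) := by
  have h1 := mass_cube D S F a
  change 2 ^ F.card * 2 ^ m * ∑ x, ind F a x * D (rs S x)
      = 2 ^ (sel S F).card * 2 ^ (m * b) * ∑ y, D y * ind (sel S F) (rs S a) y at h1
  have h2 := hpd (ind (sel S F) (rs S a)) (ind_mem_Deg _ _ ((card_sel S F).trans hF))
  have h3 : ∀ y, D y * ind (sel S F) (rs S a) y ^ 2 = D y * ind (sel S F) (rs S a) y := by
    intro y
    rw [ind]
    split_ifs <;> ring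
  simp only [h3] at h2
  have h4 : (0 : ℝ) < 2 ^ F.card * 2 ^ m := by positivity
  have h5 : 0 ≤ 2 ^ F.card * 2 ^ m * ∑ x, ind F a x * D (rs S x) := by
    rw [h1]
    positivity
  by_contra hcon
  push Not at hcon
  have := mul_neg_of_pos_of_neg h4 hcon
  linarith

/-- the mass of a narrow subcube is zero or large -/
theorem mass_dich {d : ℕ} (D : (Fin m → Bool) → ℝ) (hint : ∀ B, ∃ k : ℤ, coef B D = k)
    (hpd : ∀ g ∈ Deg (Fin m) d, 0 ≤ ∑ y, D y * g y ^ 2) (S : Fin m → Fin b)
    (F : Finset (Fin m × Fin b)) (hF : F.card ≤ d) (a : Fin m × Fin b → Bool) :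
    ∑ x, ind F a x * D (rs S x) = 0 ∨
      2 ^ (m * b) ≤ 2 ^ F.card * ∑ x, ind F a x * D (rs S x) := by
  have h0 := mass_nonneg D hpd S F hF a
  rcases h0.eq_or_lt with h | h
  · exact Or.inl h.symm
  · right
    have h1 := mass_formula D S F a
    obtain ⟨k, hk⟩ := mass_int D hint (sel S F) (rs S a)
    rw [hk] at h1
    have h2 : (0 : ℝ) < 2 ^ F.card * ∑ x, ind F a x * D (rs S x) := by positivity
    rw [h1] at h2 ⊢
    have h3 : (0 : ℝ) < 2 ^ (m * b) := by positivity
    have h4 : (0 : ℝ) < k := by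
      by_contra hcon
      push Not at hcon
      have := mul_nonpos_of_nonneg_of_nonpos h3.le hcon
      linarith
    have h5 : (1 : ℝ) ≤ k := by
      have : (0 : ℤ) < k := by exact_mod_cast h4
      exact_mod_cast this
    exact le_mul_of_one_le_right h3.le h5

/-- the positions which are not determined by the values on `F` -/
def Free (D : (Fin m → Bool) → ℝ) (S : Fin m → Fin b) (F : Finset (Fin m × Fin b))
    (p : Fin m × Fin b) : Prop :=
  p ∉ F ∧ (p.2 = S p.1 → ∀ B ⊆ sel S F, coef (insert p.1 B) D = 0)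

theorem mass_free {D : (Fin m → Bool) → ℝ} {S : Fin m → Fin b} {F : Finset (Fin m × Fin b)}
    {p : Fin m × Fin b} (h : Free D S F p) (a : Fin m × Fin b → Bool) (v : Bool) :
    2 * ∑ x, ind (insert p F) (Function.update a p v) x * D (rs S x)
      = ∑ x, ind F a x * D (rs S x) := by
  have h1 := mass_formula D S (insert p F) (Function.update a p v)
  have h2 := mass_formula D S F a
  have hchr : ∀ B ⊆ sel S F, chr B (rs S (Function.update a p v)) = chr B (rs S a) := by
    intro B hB
    rw [chr, chr]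
    refine prod_congr rfl fun j hj => ?_
    have h3 : (j, S j) ≠ p := by
      rintro rfl
      exact h.1 (mem_sel.1 (hB hj))
    rw [rs, rs, Function.update_of_ne h3]
  have h3 : ∑ B ∈ (sel S (insert p F)).powerset,
      coef B D * chr B (rs S (Function.update a p v))
      = ∑ B ∈ (sel S F).powerset, coef B D * chr B (rs S a) := by
    by_cases hp : p.2 = S p.1
    · have hpj : (p.1, S p.1) = p := by rw [← hp]
      have hnot : p.1 ∉ sel S F := by
        rw [mem_sel, hpj]
        exact h.1
      have hsel : sel S (insert p F) = insert p.1 (sel S F) := by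
        ext j
        rw [mem_insert, mem_sel, mem_sel, mem_insert]
        refine or_congr_left ⟨fun h => ?_, fun h => ?_⟩
        · rw [← h]
        · rw [h, hpj]
      rw [hsel, sum_powerset_insert hnot]
      have h4 : ∑ B ∈ (sel S F).powerset, coef (insert p.1 B) D *
          chr (insert p.1 B) (rs S (Function.update a p v)) = 0 :=
        sum_eq_zero fun B hB => by rw [h.2 hp B (mem_powerset.1 hB), zero_mul]
      rw [h4, add_zero]
      exact sum_congr rfl fun B hB => by rw [hchr B (mem_powerset.1 hB)]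
    · have hsel : sel S (insert p F) = sel S F := by
        ext j
        rw [mem_sel, mem_sel, mem_insert]
        refine ⟨fun h => ?_, fun h => Or.inr h⟩
        rcases h with h | h
        · exact absurd (by rw [← h]) hp
        · exact h
      rw [hsel]
      exact sum_congr rfl fun B hB => by rw [hchr B (mem_powerset.1 hB)]
  rw [card_insert_of_notMem h.1, h3, ← h2] at h1
  have h4 : (0 : ℝ) < 2 ^ F.card := by positivity
  refine mul_left_cancel₀ h4.ne' ?_
  rw [← h1, pow_succ]
  ring

/-- many positions are not determined -/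
theorem many_free {M r K z : ℕ} {A : Fin M → Finset (Fin m)} (hA : ∀ e, (A e).card = 3)
    (hexp : Expand A (2 * r)) (hK0 : 0 < K)
    (hK : ∀ Z : Finset (Fin m), (Z.biUnion (ball A 5)).card ≤ K * (Z.card + z))
    (D : (Fin m → Bool) → ℝ)
    (hDC : ∀ B, coef B D ≠ 0 → ∃ C : Finset (Fin M), C.card ≤ r ∧ bsum A C = B)
    (S : Fin m → Fin b) (F₀ : Finset (Fin m × Fin b)) (hr : 4 * F₀.card + 2 ≤ r)
    (F : Finset (Fin m × Fin b)) {t : ℕ} (ht : F₀.card ≤ t) (hF : K * (8 * t + 2 * z) ≤ F.card)
    (U : Finset (Fin m × Fin b)) (hU : ∀ p ∈ F, Free D S F₀ p → p ∈ U) :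
    4 * t ≤ (F ∩ U).card := by
  classical
  set W : Finset (Fin m) := sel S F with hWdef
  set Z : Finset (Fin m) := sel S F₀ with hZdef
  have hZF : Z.card ≤ F₀.card := card_sel S F₀
  have hinj : Function.Injective (fun j : Fin m => (j, S j)) := fun i j h => by
    simpa using congrArg Prod.fst h
  -- far from `Z`
  set W' : Finset (Fin m) := W \ Z.biUnion (ball A 5) with hW'
  obtain ⟨W₂, hW₂, hsep, hcard⟩ := exists_sep2 A K z hK W'
  have hW1 : W.card ≤ W'.card + K * (Z.card + z) := by
    have h1 : W ⊆ W' ∪ Z.biUnion (ball A 5) := by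
      intro j hj
      rw [mem_union, hW', mem_sdiff]
      by_cases h : j ∈ Z.biUnion (ball A 5)
      · exact Or.inr h
      · exact Or.inl ⟨hj, h⟩
    exact (card_le_card h1).trans ((card_union_le _ _).trans (Nat.add_le_add_left (hK Z) _))
  have hfar : ∀ v ∈ W₂, ∀ w ∈ Z, w ∉ ball A 5 v := by
    intro v hv w hw hwv
    have h1 := hW₂ hv
    rw [hW', mem_sdiff, mem_biUnion] at h1
    exact h1.2 ⟨w, hw, ball_symm hwv⟩
  set N : Finset (Fin m) := W₂.filter fun j => ∃ B ⊆ Z, coef (insert j B) D ≠ 0 with hN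
  have hNcard : N.card ≤ 2 * Z.card := by
    refine determined_le hA hexp hsep hfar (by omega) (filter_subset _ _) fun v hv => ?_
    obtain ⟨B, hB, hne⟩ := (mem_filter.1 hv).2
    obtain ⟨C, hC, hCB⟩ := hDC _ hne
    refine ⟨C, hC, ?_, ?_⟩
    · rw [hCB]
      exact mem_insert_self _ _
    · rw [hCB]
      exact insert_subset_insert _ hB
  -- the free positions
  have hsub : (F.filter fun p => p.2 ≠ S p.1) \ F₀ ∪ (W₂ \ N).map ⟨fun j => (j, S j), hinj⟩
      ⊆ F ∩ U := by
    intro p hp
    rw [mem_union, mem_sdiff, mem_filter, mem_map] at hp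
    rcases hp with ⟨⟨h1, h2⟩, h3⟩ | ⟨j, hj, rfl⟩
    · exact mem_inter.2 ⟨h1, hU p h1 ⟨h3, fun h => absurd h h2⟩⟩
    · rw [mem_sdiff] at hj
      have hjW : j ∈ W := (mem_sdiff.1 (hW₂ hj.1)).1
      have hjF : (j, S j) ∈ F := mem_sel.1 hjW
      refine mem_inter.2 ⟨hjF, hU _ hjF ⟨?_, fun _ B hB => ?_⟩⟩
      · intro h
        exact hfar j hj.1 j (mem_sel.2 h) (self_mem_ball A 5 j)
      · by_contra hne
        exact hj.2 (mem_filter.2 ⟨hj.1, B, hB, hne⟩)
  have hdisj : Disjoint ((F.filter fun p => p.2 ≠ S p.1) \ F₀)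
      ((W₂ \ N).map ⟨fun j => (j, S j), hinj⟩) := by
    rw [disjoint_left]
    intro p hp hp'
    rw [mem_sdiff, mem_filter] at hp
    obtain ⟨j, -, rfl⟩ := mem_map.1 hp'
    exact hp.1.2 rfl
  have h1 := card_le_card hsub
  rw [card_union_of_disjoint hdisj, card_map] at h1
  have h2 : F.card = (F.filter fun p => p.2 ≠ S p.1).card + W.card := by
    rw [← card_filter_add_card_filter_not (s := F) (fun p => p.2 ≠ S p.1)]
    congr 1
    rw [hWdef, ← card_map ⟨fun j => (j, S j), hinj⟩]
    congr 1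
    ext p
    rw [mem_filter, mem_map, not_not]
    constructor
    · rintro ⟨h3, h4⟩
      exact ⟨p.1, mem_sel.2 (by rw [← h4]; exact h3), by
        change (p.1, S p.1) = p
        rw [← h4]⟩
    · rintro ⟨j, hj, rfl⟩
      exact ⟨mem_sel.1 hj, rfl⟩
  have h3 := le_card_sdiff F₀ (F.filter fun p => p.2 ≠ S p.1)
  have h4 := le_card_sdiff N W₂
  -- the arithmetic
  set u : ℕ := (F.filter fun p => p.2 ≠ S p.1).card with hu
  have h5 : K * (8 * t + 2 * z) ≤ K * (u + W₂.card + 2 * z + t) := by
    have h6 : u ≤ K * u := Nat.le_mul_of_pos_left _ hK0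
    have h7 : K * (Z.card + z) ≤ K * (t + z) := Nat.mul_le_mul_left _ (by omega)
    have h8 : K * (u + W₂.card + 2 * z + t) = K * u + K * (W₂.card + z) + K * (t + z) := by ring
    omega
  have h6 := Nat.le_of_mul_le_mul_left h5 hK0
  omega

end

/-- **The killing lemma.** -/
theorem kill {P : Type} [Fintype P] [DecidableEq P] (mass : Finset P → (P → Bool) → ℝ)
    (free : Finset P → P → Prop) (t : ℕ) (hfree : ∀ F p, free F p → p ∉ F)
    (hmass : ∀ F a p v, free F p → 0 < mass F a → 0 < mass (insert p F) (Function.update a p v))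
    (h0 : ∀ a, 0 < mass ∅ a) (𝓛 : Finset (Finset P × (P → Bool)))
    (hmany : ∀ l ∈ 𝓛, ∀ F : Finset P, F.card ≤ t → ∀ U : Finset P,
      (∀ p ∈ l.1, free F p → p ∈ U) → 4 * t ≤ (l.1 ∩ U).card)
    (hP : 2 * t ≤ Fintype.card P)
    (hs : (𝓛.card : ℝ) * (1 - 2 * t / Fintype.card P) ^ t < 1) :
    ∃ F a, F.card ≤ t ∧ 0 < mass F a ∧ ∀ l ∈ 𝓛, ∃ p ∈ l.1, p ∈ F ∧ l.2 p ≠ a p := by
  classical
  set n : ℝ := (Fintype.card P : ℝ) with hn
  have key : ∀ i ≤ t, ∃ F a, F.card ≤ i ∧ 0 < mass F a ∧
      ((𝓛.filter fun l => ∀ p ∈ l.1, p ∈ F → l.2 p = a p).card : ℝ)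
        ≤ 𝓛.card * (1 - 2 * t / n) ^ i := by
    intro i
    induction i with
    | zero =>
      intro _
      refine ⟨∅, fun _ => false, by simp, h0 _, ?_⟩
      rw [pow_zero, mul_one]
      exact_mod_cast card_le_card (filter_subset _ _)
    | succ i ih =>
      intro hi
      obtain ⟨F, a, hF, hm, hc⟩ := ih (by omega)
      set 𝓐 := 𝓛.filter fun l => ∀ p ∈ l.1, p ∈ F → l.2 p = a p with h𝓐
      have ht0 : (0 : ℝ) < t := by exact_mod_cast (by omega : 0 < t)
      have hPn : (2 : ℝ) * t ≤ n := by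
        rw [hn]
        exact_mod_cast hP
      have hn0 : 0 < n := by linarith
      have hfac : 0 ≤ 1 - 2 * (t : ℝ) / n := by
        rw [sub_nonneg, div_le_one hn0]
        exact hPn
      rcases 𝓐.eq_empty_or_nonempty with hemp | hne
      · refine ⟨F, a, by omega, hm, ?_⟩
        rw [← h𝓐, hemp, card_empty, Nat.cast_zero]
        positivity
      -- a position which kills many
      set U : Finset P := univ.filter fun p => free F p with hU
      have hsum : ∀ l ∈ 𝓐, (4 * t : ℝ) ≤ ∑ p ∈ U, if p ∈ l.1 then (1 : ℝ) else 0 := by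
        intro l hl
        have h1 := hmany l (mem_filter.1 hl).1 F (by omega) U
          fun p _ hp => mem_filter.2 ⟨mem_univ _, hp⟩
        rw [sum_boole]
        have h2 : U.filter (fun p => p ∈ l.1) = l.1 ∩ U := by
          ext p
          rw [mem_filter, mem_inter, and_comm]
        rw [h2]
        exact_mod_cast h1
      obtain ⟨p, hpU, hp⟩ : ∃ p ∈ U, 4 * t / n * (𝓐.card : ℝ)
          ≤ ∑ l ∈ 𝓐, if p ∈ l.1 then (1 : ℝ) else 0 := by
        by_contra hcon
        push Not at hcon
        have h1 : ∑ l ∈ 𝓐, (4 * t : ℝ) ≤ ∑ l ∈ 𝓐, ∑ p ∈ U, if p ∈ l.1 then (1 : ℝ) else 0 :=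
          sum_le_sum hsum
        rw [sum_comm, sum_const, nsmul_eq_mul] at h1
        have h2 : U.Nonempty := by
          rw [nonempty_iff_ne_empty]
          intro h
          obtain ⟨l, hl⟩ := hne
          have := hsum l hl
          rw [h, sum_empty] at this
          linarith
        have h3 : ∑ p ∈ U, ∑ l ∈ 𝓐, (if p ∈ l.1 then (1 : ℝ) else 0)
            < ∑ p ∈ U, 4 * t / n * (𝓐.card : ℝ) := sum_lt_sum_of_nonempty h2 hcon
        rw [sum_const, nsmul_eq_mul] at h3
        have h4 : (U.card : ℝ) * (4 * t / n * 𝓐.card) ≤ n * (4 * t / n * 𝓐.card) := by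
          refine mul_le_mul_of_nonneg_right ?_ (by positivity)
          rw [hn]
          exact_mod_cast card_le_univ U
        have h5 : n * (4 * t / n * (𝓐.card : ℝ)) = 𝓐.card * (4 * t) := by
          field_simp
        linarith
      have hfp : free F p := (mem_filter.1 hpU).2
      rw [sum_boole] at hp
      -- the value
      obtain ⟨v, hv⟩ : ∃ v : Bool, 2 * t / n * (𝓐.card : ℝ)
          ≤ ((𝓐.filter fun l => p ∈ l.1 ∧ l.2 p = v).card : ℝ) := by
        by_contra hcon
        push Not at hcon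
        have h1 := hcon true
        have h2 := hcon false
        have h3 : (𝓐.filter fun l => p ∈ l.1).card
            ≤ (𝓐.filter fun l => p ∈ l.1 ∧ l.2 p = true).card
              + (𝓐.filter fun l => p ∈ l.1 ∧ l.2 p = false).card := by
          refine (card_le_card fun l hl => ?_).trans (card_union_le _ _)
          obtain ⟨hl1, hl2⟩ := mem_filter.1 hl
          rw [mem_union]
          cases h : l.2 p
          · exact Or.inr (mem_filter.2 ⟨hl1, hl2, h⟩)
          · exact Or.inl (mem_filter.2 ⟨hl1, hl2, h⟩)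
        have h4 : ((𝓐.filter fun l => p ∈ l.1).card : ℝ)
            ≤ (𝓐.filter fun l => p ∈ l.1 ∧ l.2 p = true).card
              + (𝓐.filter fun l => p ∈ l.1 ∧ l.2 p = false).card := by exact_mod_cast h3
        have h5 : 4 * t / n * (𝓐.card : ℝ) = 2 * t / n * 𝓐.card + 2 * t / n * 𝓐.card := by ring
        linarith
      refine ⟨insert p F, Function.update a p (!v), (card_insert_le _ _).trans (by omega),
        hmass F a p _ hfp hm, ?_⟩
      have hsub : (𝓛.filter fun l => ∀ q ∈ l.1, q ∈ insert p F →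
          l.2 q = Function.update a p (!v) q) ⊆ 𝓐 \ (𝓐.filter fun l => p ∈ l.1 ∧ l.2 p = v) := by
        intro l hl
        rw [mem_filter] at hl
        rw [mem_sdiff]
        refine ⟨mem_filter.2 ⟨hl.1, fun q hq hqF => ?_⟩, fun h' => ?_⟩
        · have h1 := hl.2 q hq (mem_insert_of_mem hqF)
          have h2 : q ≠ p := by
            rintro rfl
            exact hfree F q hfp hqF
          rwa [Function.update_of_ne h2] at h1
        · obtain ⟨-, h1, h2⟩ := mem_filter.1 h'
          have h3 := hl.2 p h1 (mem_insert_self _ _)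
          rw [Function.update_self, h2] at h3
          cases v <;> simp at h3
      have h1 := card_le_card hsub
      rw [card_sdiff_of_subset (filter_subset _ _)] at h1
      have h2 : (𝓐.filter fun l => p ∈ l.1 ∧ l.2 p = v).card ≤ 𝓐.card :=
        card_le_card (filter_subset _ _)
      have h3 : (((𝓛.filter fun l => ∀ q ∈ l.1, q ∈ insert p F →
          l.2 q = Function.update a p (!v) q)).card : ℝ)
          ≤ 𝓐.card - (𝓐.filter fun l => p ∈ l.1 ∧ l.2 p = v).card := by
        rw [← Nat.cast_sub h2]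
        exact_mod_cast h1
      calc _ ≤ (𝓐.card : ℝ) - (𝓐.filter fun l => p ∈ l.1 ∧ l.2 p = v).card := h3
        _ ≤ 𝓐.card - 2 * t / n * 𝓐.card := by linarith
        _ = 𝓐.card * (1 - 2 * t / n) := by ring
        _ ≤ 𝓛.card * (1 - 2 * t / n) ^ i * (1 - 2 * t / n) :=
            mul_le_mul_of_nonneg_right hc hfac
        _ = 𝓛.card * (1 - 2 * t / n) ^ (i + 1) := by
            rw [pow_succ]
            ring
  obtain ⟨F, a, hF, hm, hc⟩ := key t le_rfl
  refine ⟨F, a, hF, hm, fun l hl => ?_⟩
  have h1 : (𝓛.filter fun l => ∀ p ∈ l.1, p ∈ F → l.2 p = a p).card < 1 := by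
    have := lt_of_le_of_lt hc hs
    exact_mod_cast this
  by_contra hcon
  push Not at hcon
  have h2 : l ∈ 𝓛.filter fun l => ∀ p ∈ l.1, p ∈ F → l.2 p = a p :=
    mem_filter.2 ⟨hl, hcon⟩
  have := card_pos.2 ⟨l, h2⟩
  omega

end AVD
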