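import Pool.Agent.AV.Numbers8

/-!
# AVD: the numbers for search dags

The constants `lam`, `b` are chosen first, then (for the rank factor `R`) the number `T` of phases and
`κ`, then `c`. `p` is the length of a phase.
-/

set_option autoImplicit false

open Filter Topology

namespace AVD

open LIFT LIFT.h44 AV

/-- `t ^ d * (1 + 2 / t) ^ n` -/
theorem count_le {t x y : ℝ} (ht : 1 ≤ t) {d n : ℕ} (hd : (d : ℝ) * Real.log t ≤ x)
    (hn : 2 * (n : ℝ) ≤ y * t) : t ^ d * (1 + 2 * (1 / t)) ^ n ≤ Real.exp (x + y) := by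
  have ht0 : 0 < t := by linarith
  rw [Real.exp_add]
  refine mul_le_mul ?_ ?_ (by positivity) (Real.exp_pos _).le
  · rw [← Real.exp_log ht0, ← Real.exp_nat_mul]
    exact Real.exp_le_exp.2 hd
  · have e3 : 1 + 2 * (1 / t) ≤ Real.exp (2 * (1 / t)) := by
      have := Real.add_one_le_exp (2 * (1 / t))
      linarith
    refine (pow_le_pow_left₀ (by positivity) e3 n).trans ?_
    rw [← Real.exp_nat_mul]
    apply Real.exp_le_exp.2
    have e4 : (n : ℝ) * (2 * (1 / t)) = 2 * n / t := by ring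
    rw [e4, div_le_iff₀ ht0]
    exact hn

/-- the count of the rows in the phases -/
theorem count_phases {T : ℕ} {m N N' x : ℝ} (hN0 : 0 ≤ N) (hN'0 : 0 ≤ N') (hm : 0 ≤ m)
    (hN : N ≤ Real.exp (m / (32 * (T + 2)))) (hN' : N' ≤ Real.exp (m / 32)) (hx : x ≤ m / 64)
    (hT : Real.log (36 * 8 ^ (T + 1)) ≤ 3 * m / 64) :
    (8 * N) ^ (T + 1) * (N' * N * Real.exp x + 2) * 12 ≤ Real.exp (m / 8) := by
  set E := Real.exp (m / (32 * (T + 2))) with hE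
  have hE1 : 1 ≤ E := Real.one_le_exp (by positivity)
  have h32 : 1 ≤ Real.exp (m / 32) := Real.one_le_exp (by positivity)
  have h64 : 1 ≤ Real.exp (m / 64) := Real.one_le_exp (by positivity)
  have h1 : N' * N * Real.exp x ≤ Real.exp (m / 32) * E * Real.exp (m / 64) := by
    have := Real.exp_le_exp.2 hx
    gcongr
  have h2 : 1 ≤ Real.exp (m / 32) * E * Real.exp (m / 64) := by
    have h3 : 1 ≤ Real.exp (m / 32) * E := by nlinarith
    nlinarith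
  have hEpow : E ^ (T + 2) = Real.exp (m / 32) := by
    rw [hE, ← Real.exp_nat_mul]
    congr 1
    push_cast
    have : (T : ℝ) + 2 ≠ 0 := by positivity
    field_simp
  have h4 : (36 : ℝ) * 8 ^ (T + 1) ≤ Real.exp (3 * m / 64) := by
    rw [← Real.exp_log (by positivity : (0 : ℝ) < 36 * 8 ^ (T + 1))]
    exact Real.exp_le_exp.2 hT
  calc (8 * N) ^ (T + 1) * (N' * N * Real.exp x + 2) * 12
      ≤ (8 * E) ^ (T + 1) * (3 * (Real.exp (m / 32) * E * Real.exp (m / 64))) * 12 := by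
        gcongr
        linarith
    _ = (36 * 8 ^ (T + 1)) * (E ^ (T + 2) * Real.exp (m / 32) * Real.exp (m / 64)) := by
        rw [mul_pow, pow_succ E (T + 1)]
        ring
    _ ≤ Real.exp (3 * m / 64) * (Real.exp (m / 32) * Real.exp (m / 32) * Real.exp (m / 64)) := by
        rw [hEpow]
        gcongr
    _ = Real.exp (m / 8) := by
        rw [← Real.exp_add, ← Real.exp_add, ← Real.exp_add]
        congr 1
        ring


/-- `c * n` is small -/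
theorem cn_a {b c n m : ℝ} (hb : 0 < b) (hn0 : 0 ≤ n) (hc : c ≤ 1 / (128 * b))
    (hn : n ≤ 2 * b * m) : c * n ≤ m / 64 := by
  calc c * n ≤ 1 / (128 * b) * (2 * b * m) := mul_le_mul hc hn hn0 (by positivity)
    _ = m / 64 := by
        field_simp
        ring

theorem cn_b {b c n m κ K T : ℝ} (hb : 0 < b) (hK : 0 < K) (hκ : 0 < κ) (hT : 0 ≤ T) (hn0 : 0 ≤ n)
    (hc : c ≤ κ * Real.log 2 / (4 * b * K * (T + 1))) (hn : n ≤ 2 * b * m) :
    (T + 1) * (c * n) ≤ κ * Real.log 2 / (2 * K) * m := by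
  have hlog2 : 0 < Real.log 2 := Real.log_pos (by norm_num)
  generalize Real.log 2 = l at hc hlog2 ⊢
  calc (T + 1) * (c * n) ≤ (T + 1) * (κ * l / (4 * b * K * (T + 1)) * (2 * b * m)) :=
        mul_le_mul_of_nonneg_left (mul_le_mul hc hn hn0 (by positivity)) (by positivity)
    _ = κ * l / (2 * K) * m := by
        have : T + 1 ≠ 0 := by positivity
        field_simp
        ring

theorem cn_c {b c n m l A : ℝ} (hb : 0 < b) (hl : 0 < l) (hA : 0 < A) (hn0 : 0 ≤ n)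
    (hc : c ≤ 1 / (A * b * l)) (hn : n ≤ 2 * b * m) : c * n * l ≤ 2 / A * m := by
  calc c * n * l ≤ 1 / (A * b * l) * (2 * b * m) * l :=
        mul_le_mul_of_nonneg_right (mul_le_mul hc hn hn0 (by positivity)) hl.le
    _ = 2 / A * m := by
        field_simp

/-- the phases cover the run -/
theorem cover {R n T p b m κ₂ : ℝ} (hT : 4 * b * R ≤ T * κ₂) (hm : 0 ≤ m) (hR : 0 ≤ R)
    (hn : n ≤ 2 * b * m) (hT0 : 0 ≤ T) (h7 : κ₂ * m ≤ 2 * p) : R * n ≤ T * p := by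
  have h9 : R * n ≤ R * (2 * b * m) := mul_le_mul_of_nonneg_left hn hR
  have h10 := mul_le_mul_of_nonneg_right hT hm
  have h11 := mul_le_mul_of_nonneg_left h7 hT0
  linarith

/-- the number of the rows of depth `d₀` -/
theorem rows_a {T : ℕ} {b m κ N : ℝ} {d₀ n : ℕ} (hb : 1 ≤ b) (hm : 0 ≤ m)
    (hn : (n : ℝ) ≤ 2 * b * m) (hd : (d₀ : ℝ) ≤ κ * m)
    (hκ : κ ≤ 1 / (64 * (T + 2) * Real.log (256 * b * (T + 2))))
    (hN : ∀ t : ℝ, 1 ≤ t → N ≤ t ^ d₀ * (1 + 2 * (1 / t)) ^ n) :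
    N ≤ Real.exp (m / (32 * (T + 2))) := by
  have hT0 : (0 : ℝ) ≤ T := Nat.cast_nonneg _
  have ht₁1 : 1 < 256 * b * (T + 2 : ℝ) := by nlinarith
  have hlogt₁ : 0 < Real.log (256 * b * (T + 2)) := Real.log_pos ht₁1
  refine (hN _ ht₁1.le).trans ((count_le ht₁1.le (x := m / (64 * (T + 2)))
    (y := m / (64 * (T + 2))) ?_ ?_).trans (le_of_eq ?_))
  · generalize Real.log (256 * b * ((T : ℝ) + 2)) = l at hκ hlogt₁ ⊢
    calc (d₀ : ℝ) * l ≤ (1 / (64 * (T + 2) * l) * m) * l := by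
          refine mul_le_mul_of_nonneg_right (hd.trans ?_) hlogt₁.le
          exact mul_le_mul_of_nonneg_right hκ hm
      _ = m / (64 * (T + 2)) := by
          field_simp
  · calc 2 * (n : ℝ) ≤ 2 * (2 * b * m) := by linarith
      _ = m / (64 * (T + 2)) * (256 * b * (T + 2)) := by
          field_simp
          ring
  · congr 1
    field_simp
    ring

/-- the number of the rows of depth `d₀ + p` -/
theorem rows_b {b m κ κ₂ N' : ℝ} {d₀ p n : ℕ} (hb : 1 ≤ b) (hm : 0 ≤ m)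
    (hn : (n : ℝ) ≤ 2 * b * m) (hd : (d₀ : ℝ) ≤ κ * m) (hp : (p : ℝ) ≤ κ₂ * m) (hκ : κ ≤ κ₂)
    (hκ₂ : κ₂ = 1 / (256 * Real.log (256 * b)))
    (hN : ∀ t : ℝ, 1 ≤ t → N' ≤ t ^ (d₀ + p) * (1 + 2 * (1 / t)) ^ n) :
    N' ≤ Real.exp (m / 32) := by
  have hlog : 0 < Real.log (256 * b) := Real.log_pos (by linarith)
  refine (hN (256 * b) (by linarith)).trans ((count_le (by linarith) (x := m / 128)
    (y := m / 64) ?_ ?_).trans (Real.exp_le_exp.2 (by linarith)))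
  · have h6 : (((d₀ + p : ℕ) : ℝ)) ≤ 2 * κ₂ * m := by
      have h7 : κ * m ≤ κ₂ * m := mul_le_mul_of_nonneg_right hκ hm
      push_cast
      linarith
    generalize Real.log (256 * b) = l at hκ₂ hlog ⊢
    calc ((d₀ + p : ℕ) : ℝ) * l ≤ (2 * κ₂ * m) * l := mul_le_mul_of_nonneg_right h6 hlog.le
      _ = m / 128 := by
          rw [hκ₂]
          field_simp
          ring
  · have : m / 64 * (256 * b) = 2 * (2 * b * m) := by ring
    linarith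

/-- the small entries -/
theorem small_g {m q x N : ℝ} {d₀ : ℕ} (hq : m = 3 * q) (hm : 36 ≤ m) (hd : (d₀ : ℝ) ≤ m / 64)
    (hx : x ≤ m / 64) (hN0 : 0 ≤ N) (hN : N ≤ Real.exp (m / 64)) :
    2 ^ (d₀ + 1) * Real.exp (-(q / 2)) * (N * Real.exp x) ≤ Real.exp (-(2 * x)) := by
  have k4 : (2 : ℝ) ^ (d₀ + 1) ≤ Real.exp (m / 64 + 1) := by
    refine (two_pow_le _).trans (Real.exp_le_exp.2 ?_)
    push_cast
    linarith
  calc (2 : ℝ) ^ (d₀ + 1) * Real.exp (-(q / 2)) * (N * Real.exp x)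
      ≤ Real.exp (m / 64 + 1) * Real.exp (-(q / 2)) * (Real.exp (m / 64) * Real.exp x) := by
        gcongr
    _ = Real.exp (m / 64 + 1 - q / 2 + m / 64 + x) := by
        rw [← Real.exp_add, ← Real.exp_add, ← Real.exp_add]
        congr 1
        ring
    _ ≤ Real.exp (-(2 * x)) := by
        apply Real.exp_le_exp.2
        linarith

/-- the deep nodes -/
theorem deep_m {m x κ : ℝ} {T K b d₀ : ℕ} (hK : 0 < K) (hd : κ * m < d₀ + 1)
    (hx : ((T : ℝ) + 1) * x ≤ κ * Real.log 2 / (2 * K) * m) :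
    12 * (4 * Real.exp x) ^ (T + 1) / 2 ^ ((d₀ - 3 * b) / K) ≤ 12 * 4 ^ (T + 1) *
      Real.exp (((1 + 3 * b) / K + 1) * Real.log 2) *
      Real.exp (-(κ * Real.log 2 / (2 * K) * m)) := by
  have hK0 : (0 : ℝ) < K := by exact_mod_cast hK
  have hlog2 : 0 < Real.log 2 := Real.log_pos (by norm_num)
  have e1 : (2 : ℝ) ^ ((d₀ - 3 * b) / K) = Real.exp (((d₀ - 3 * b) / K : ℕ) * Real.log 2) := by
    rw [Real.exp_nat_mul, Real.exp_log (by norm_num)]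
  have e2 : d₀ ≤ 3 * b + K * ((d₀ - 3 * b) / K + 1) := by
    have := Nat.lt_mul_div_succ (d₀ - 3 * b) hK
    omega
  have e3 : (d₀ : ℝ) ≤ 3 * b + K * (((d₀ - 3 * b) / K : ℕ) + 1) := by exact_mod_cast e2
  rw [e1]
  generalize (d₀ - 3 * b) / K = w at e3 ⊢
  generalize Real.log 2 = l at hx hlog2 ⊢
  have e4 : κ * m / K ≤ (1 + 3 * b) / K + 1 + w := by
    rw [div_le_iff₀ hK0]
    have : (((1 : ℝ) + 3 * b) / K + 1 + w) * K = 1 + 3 * b + K * (w + 1) := by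
      field_simp
      ring
    rw [this]
    linarith
  have e5 := mul_le_mul_of_nonneg_right e4 hlog2.le
  have e6 : κ * m / K * l = 2 * (κ * l / (2 * K) * m) := by
    field_simp
  rw [e6] at e5
  have e7 : 12 * (4 * Real.exp x) ^ (T + 1) / Real.exp (w * l)
      = 12 * 4 ^ (T + 1) * Real.exp ((T + 1 : ℕ) * x - w * l) := by
    rw [mul_pow, ← Real.exp_nat_mul, Real.exp_sub]
    ring
  rw [e7, mul_assoc (12 * 4 ^ (T + 1) : ℝ) (Real.exp _) (Real.exp _), ← Real.exp_add]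
  refine mul_le_mul_of_nonneg_left (Real.exp_le_exp.2 ?_) (by positivity)
  push_cast
  linarith

/-- the constraints: the last sum -/
theorem cons_a {q : ℝ} (hq : 12 ≤ q) :
    (Real.exp (q / 4) * Real.exp (q / 4)) * Real.exp (q / 8) * (Real.exp (q / 4)
      * (2 * Real.exp (-(10 * q : ℝ)) + Real.exp q * Real.exp (-(10 * q : ℝ))))
      + Real.exp (-(10 * q)) ≤ 1 / 16 * Real.exp (-q) := by
  have e2 : (Real.exp (q / 4) * Real.exp (q / 4)) * Real.exp (q / 8) * (Real.exp (q / 4)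
          * (2 * Real.exp (-(10 * q : ℝ)) + Real.exp q * Real.exp (-(10 * q : ℝ))))
      = 2 * Real.exp (-(73 / 8 * q)) + Real.exp (-(65 / 8 * q)) := by
    have h7 : Real.exp (-(73 / 8 * q)) = (Real.exp (q / 4) * Real.exp (q / 4))
        * Real.exp (q / 8) * Real.exp (q / 4) * Real.exp (-(10 * q : ℝ)) := by
      rw [← Real.exp_add, ← Real.exp_add, ← Real.exp_add, ← Real.exp_add]
      congr 1
      ring
    have h8 : Real.exp (-(65 / 8 * q)) = Real.exp (-(73 / 8 * q)) * Real.exp q := by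
      rw [← Real.exp_add]
      congr 1
      ring
    rw [h8, h7]
    ring
  have e3 : Real.exp (-(73 / 8 * q)) ≤ Real.exp (-(8 * q)) := Real.exp_le_exp.2 (by linarith)
  have e4 : Real.exp (-(65 / 8 * q)) ≤ Real.exp (-(8 * q)) := Real.exp_le_exp.2 (by linarith)
  have e5 : Real.exp (-(10 * q)) ≤ Real.exp (-(8 * q)) := Real.exp_le_exp.2 (by linarith)
  have e6 : 64 * Real.exp (-(8 * q)) ≤ Real.exp (-q) := by
    have h7 : Real.exp (-(8 * q)) = Real.exp (-q) * Real.exp (-(7 * q)) := by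
      rw [← Real.exp_add]
      congr 1
      ring
    have h8 : Real.exp (-(7 * q)) ≤ 1 / 64 := by
      have h9 : Real.exp (-(7 * q)) ≤ Real.exp (-((6 : ℕ) * 1)) :=
        Real.exp_le_exp.2 (by push_cast; linarith)
      refine h9.trans ?_
      rw [Real.exp_neg, one_div]
      refine inv_anti₀ (by norm_num) ?_
      rw [Real.exp_nat_mul]
      have h10 : (2 : ℝ) ≤ Real.exp 1 := by
        have := Real.add_one_le_exp (1 : ℝ)
        linarith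
      calc (64 : ℝ) = 2 ^ 6 := by norm_num
        _ ≤ Real.exp 1 ^ 6 := pow_le_pow_left₀ (by norm_num) h10 6
    have h9 := mul_le_mul_of_nonneg_left h8 (Real.exp_pos (-q)).le
    rw [h7]
    linarith
  rw [e2]
  linarith

theorem cons_b {q t : ℝ} {w : ℕ} (ht : 1 ≤ t) (hw : (w : ℝ) * Real.log t ≤ q) :
    t ^ w ≤ Real.exp q := by
  rw [← Real.exp_log (by linarith : 0 < t), ← Real.exp_nat_mul]
  exact Real.exp_le_exp.2 hw

theorem cons_c {q : ℝ} {Δ m : ℕ} (hΔ : 0 < Δ) (hq : (m : ℝ) = 3 * q) :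
    (1 + 1 / (12 * (Δ : ℝ))) ^ (Δ * m) ≤ Real.exp (q / 4) := by
  have hΔ0 : (0 : ℝ) < Δ := by exact_mod_cast hΔ
  have e3 : 1 + 1 / (12 * (Δ : ℝ)) ≤ Real.exp (1 / (12 * (Δ : ℝ))) := by
    have := Real.add_one_le_exp (1 / (12 * (Δ : ℝ)))
    linarith
  refine (pow_le_pow_left₀ (by positivity) e3 _).trans ?_
  rw [← Real.exp_nat_mul]
  apply Real.exp_le_exp.2
  apply le_of_eq
  push_cast
  rw [hq]
  field_simp
  ring

/-- the constraints -/
theorem cons_d {q x A B b : ℝ} {Δ m w J : ℕ} (hΔ : 0 < Δ) (hb : 1 ≤ b) (hq : (m : ℝ) = 3 * q)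
    (hq12 : 12 ≤ q) (hx : x ≤ q / 8) (hJ : (J : ℝ) ≤ Real.exp x) (hw : (w : ℝ) ≤ x)
    (hx1 : x * Real.log (12 * Δ) ≤ q / 4) (hx2 : 3 * (x * Real.log (96 * b)) ≤ q / 4)
    (hA : A ≤ 2 * Real.exp (-(10 * q))) (hB0 : 0 ≤ B) (hB : B ≤ Real.exp (-(10 * q))) :
    B + ((12 * (Δ : ℝ)) ^ w * (1 + 1 / (12 * (Δ : ℝ))) ^ (Δ * m)) * J * (b ^ (3 * w)
      * (A + w * B)) ≤ 1 / 16 * Real.exp (-q) := by
  have hΔ1 : (1 : ℝ) ≤ Δ := by exact_mod_cast hΔ
  have hlogt : 0 < Real.log (12 * Δ) := Real.log_pos (by linarith)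
  have hlog96 : 0 < Real.log (96 * b) := Real.log_pos (by linarith)
  have k1 : (12 * (Δ : ℝ)) ^ w ≤ Real.exp (q / 4) :=
    cons_b (by linarith) ((mul_le_mul_of_nonneg_right hw hlogt.le).trans hx1)
  have k2 := cons_c hΔ hq
  have k3 : (J : ℝ) ≤ Real.exp (q / 8) := hJ.trans (Real.exp_le_exp.2 hx)
  have k4 : b ^ (3 * w) ≤ Real.exp (q / 4) := by
    refine (pow_le_pow_left₀ (by linarith) (by linarith : b ≤ 96 * b) _).trans
      (cons_b (by linarith) ?_)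
    have := mul_le_mul_of_nonneg_right hw hlog96.le
    push_cast
    linarith
  have k5 : (w : ℝ) ≤ Real.exp q := by
    have := Real.add_one_le_exp q
    linarith
  have e0 : A + w * B ≤ 2 * Real.exp (-(10 * q : ℝ)) + Real.exp q * Real.exp (-(10 * q : ℝ)) :=
    add_le_add hA (mul_le_mul k5 hB hB0 (Real.exp_pos _).le)
  have e00 : 0 ≤ 2 * Real.exp (-(10 * q : ℝ)) + Real.exp q * Real.exp (-(10 * q : ℝ)) := by
    positivity
  have e1 : ((12 * (Δ : ℝ)) ^ w * (1 + 1 / (12 * (Δ : ℝ))) ^ (Δ * m)) * J * (b ^ (3 * w)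
      * (A + w * B))
      ≤ (Real.exp (q / 4) * Real.exp (q / 4)) * Real.exp (q / 8) * (Real.exp (q / 4)
          * (2 * Real.exp (-(10 * q : ℝ)) + Real.exp q * Real.exp (-(10 * q : ℝ)))) := by
    have f1 : ((12 * (Δ : ℝ)) ^ w * (1 + 1 / (12 * (Δ : ℝ))) ^ (Δ * m)) * J
        ≤ (Real.exp (q / 4) * Real.exp (q / 4)) * Real.exp (q / 8) := by gcongr
    have f2 : b ^ (3 * w) * (A + w * B) ≤ Real.exp (q / 4)
          * (2 * Real.exp (-(10 * q : ℝ)) + Real.exp q * Real.exp (-(10 * q : ℝ))) :=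
      (mul_le_mul_of_nonneg_left e0 (by positivity)).trans (mul_le_mul_of_nonneg_right k4 e00)
    exact (mul_le_mul_of_nonneg_left f2 (by positivity)).trans
      (mul_le_mul_of_nonneg_right f1 (by positivity))
  have := cons_a hq12
  linarith

/-- the numbers -/
theorem numbers9 (β' : ℝ) (hβ : 0 < β') (b₀ Δ : ℕ) (hΔ : 0 < Δ) :
    ∃ (lam : ℝ) (b : ℕ), 1 < lam ∧ 0 < b ∧ b₀ ≤ b ∧ lam ^ 8 ≤ 4 * b ∧
      ∀ R : ℕ, ∃ (κ : ℝ) (T : ℕ), 0 < κ ∧
      ∀ K : ℕ, 0 < K → ∀ c₁ : ℝ, 0 < c₁ → ∃ c : ℝ, 0 < c ∧ c ≤ c₁ ∧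
      ∀ γ : ℝ, 0 < γ → ∀ m₀ : ℕ, ∃ n₀ : ℕ, ∀ n : ℕ, n₀ ≤ n →
      ∀ m : ℕ, m = n / b → m₀ ≤ m ∧ 0 < m ∧ m * b ≤ n ∧ n ≤ m * b + b ∧ 32 ≤ β' * m ∧
      n ≤ 2 * (b : ℝ) * m ∧
      ∃ d₀ p : ℕ, 4 * ((d₀ : ℝ) + 1) ≤ β' * m ∧ κ * m + 3 * b ≤ d₀ ∧ R * n ≤ T * p ∧
      ∃ P γ' : ℝ, 0 < γ' ∧ γ' ≤ 1 ∧ 0 ≤ P ∧
      (∀ N N' : ℝ, 0 ≤ N → 0 ≤ N' → (∀ t : ℝ, 1 ≤ t → N ≤ t ^ d₀ * (1 + 2 * (1 / t)) ^ n) →
        (∀ t : ℝ, 1 ≤ t → N' ≤ t ^ (d₀ + p) * (1 + 2 * (1 / t)) ^ n) →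
        (8 * N) ^ (T + 1) * (N' * N * Real.exp (c * n) + 2) * 12 ≤ P ∧
        2 ^ (d₀ + 1) * γ' * (N * Real.exp (c * n)) ≤ Real.exp (-(2 * (c * n)))) ∧
      (2 : ℝ) ^ m * 2 ^ (3 * b) * 2 ^ (d₀ + 1) ≤ Real.exp (4 * m) ∧
      12 * (4 * Real.exp (c * n)) ^ (T + 1) / 2 ^ ((d₀ - 3 * b) / K) < γ ∧
      ∀ d k r : ℕ, β' * m ≤ d + 1 → β' * m ≤ k → 0 < r → (r : ℝ) ≤ Real.exp (c * n) + 1 →
        2 * 2 ^ m / lam ^ (d + 1) * Real.sqrt (24 ^ m) ≤ γ / 2 ∧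
        P * γ' + P * (2 * 2 ^ m / lam ^ (d + 1) * Real.sqrt (24 ^ m)) < γ ∧
        ∀ J w : ℕ, (J : ℝ) ≤ Real.exp (c * n) → (w : ℝ) ≤ c * n →
        2 * (2 * 2 ^ m * (4 * r / γ') / lam ^ (d + 1) * Real.sqrt (24 ^ m * r))
          + Real.exp (-(c * n)) * (2 * 2 ^ m / lam ^ (d + 1) * Real.sqrt (24 ^ m))
          + Real.exp (-(c * n)) * γ' / 8 + (Real.sqrt (2 ^ m / (b : ℝ) ^ k)
            + ((12 * (Δ : ℝ)) ^ w * (1 + 1 / (12 * (Δ : ℝ))) ^ (Δ * m)) * J * ((b : ℝ) ^ (3 * w)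
              * (2 * 2 ^ m / lam ^ (d + 1) * Real.sqrt (24 ^ m)
                + w * Real.sqrt (2 ^ m / (b : ℝ) ^ k))))
          < Real.exp (-(c * n)) * γ' / 2 := by
  obtain ⟨lam, b, h1, h2, h3, h4, h5⟩ := in_m8 β' hβ b₀
  refine ⟨lam, b, h1, h2, h3, h4, fun R => ?_⟩
  have hb0 : (0 : ℝ) < b := by exact_mod_cast h2
  have hb1 : (1 : ℝ) ≤ b := by exact_mod_cast h2
  have hlog2 : 0 < Real.log 2 := Real.log_pos (by norm_num)
  have hlog96 : 0 < Real.log (96 * b) := Real.log_pos (by linarith)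
  have hlog256 : 0 < Real.log (256 * b) := Real.log_pos (by linarith)
  obtain ⟨κ₂, hκ₂⟩ : ∃ κ₂ : ℝ, κ₂ = 1 / (256 * Real.log (256 * b)) := ⟨_, rfl⟩
  have hκ₂0 : 0 < κ₂ := by
    rw [hκ₂]
    positivity
  obtain ⟨T, hT⟩ := exists_nat_ge (4 * b * R / κ₂)
  rw [div_le_iff₀ hκ₂0] at hT
  have hT0 : (0 : ℝ) ≤ T := Nat.cast_nonneg _
  have hlogt₁ : 0 < Real.log (256 * b * ((T : ℝ) + 2)) := by
    refine Real.log_pos ?_
    nlinarith
  obtain ⟨κ, hκ⟩ : ∃ κ : ℝ, κ = min (min (β' / 8) (1 / 64))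
    (min κ₂ (1 / (64 * (T + 2) * Real.log (256 * b * ((T : ℝ) + 2))))) := ⟨_, rfl⟩
  have hκ0 : 0 < κ := by
    rw [hκ]
    exact lt_min (lt_min (by positivity) (by norm_num)) (lt_min hκ₂0 (by positivity))
  have hκ1 : κ ≤ β' / 8 := hκ.trans_le ((min_le_left _ _).trans (min_le_left _ _))
  have hκ2 : κ ≤ 1 / 64 := hκ.trans_le ((min_le_left _ _).trans (min_le_right _ _))
  have hκ3 : κ ≤ κ₂ := hκ.trans_le ((min_le_right _ _).trans (min_le_left _ _))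
  have hκ4 : κ ≤ 1 / (64 * (T + 2) * Real.log (256 * b * ((T : ℝ) + 2))) :=
    hκ.trans_le ((min_le_right _ _).trans (min_le_right _ _))
  clear hκ
  refine ⟨κ / 2, T, by positivity, fun K hK c₁ hc₁ => ?_⟩
  have hK0 : (0 : ℝ) < K := by exact_mod_cast hK
  have hΔ1 : (1 : ℝ) ≤ Δ := by exact_mod_cast hΔ
  have hlogt : 0 < Real.log (12 * Δ) := Real.log_pos (by linarith)
  obtain ⟨c, hc⟩ : ∃ c : ℝ, c = min (min (1 / (128 * (b : ℝ))) (κ * Real.log 2 / (4 * b * K * (T + 1))))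
    (min (min (1 / (24 * b * Real.log (12 * Δ))) (1 / (72 * b * Real.log (96 * b)))) c₁) :=
    ⟨_, rfl⟩
  have hc0 : 0 < c := by
    rw [hc]
    exact lt_min (lt_min (by positivity) (by positivity))
      (lt_min (lt_min (by positivity) (by positivity)) hc₁)
  have hcA : c ≤ 1 / (128 * b) := hc.trans_le ((min_le_left _ _).trans (min_le_left _ _))
  have hcB : c ≤ κ * Real.log 2 / (4 * b * K * (T + 1)) :=
    hc.trans_le ((min_le_left _ _).trans (min_le_right _ _))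
  have hcC : c ≤ 1 / (24 * b * Real.log (12 * Δ)) :=
    hc.trans_le (((min_le_right _ _).trans (min_le_left _ _)).trans (min_le_left _ _))
  have hcD : c ≤ 1 / (72 * b * Real.log (96 * b)) :=
    hc.trans_le (((min_le_right _ _).trans (min_le_left _ _)).trans (min_le_right _ _))
  refine ⟨c, hc0, hc.trans_le ((min_le_right _ _).trans (min_le_right _ _)), fun γ hγ m₀ => ?_⟩
  clear hc
  obtain ⟨m₁, h5⟩ := h5 γ hγ
  -- the mass of the deep nodes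
  have hlim : Tendsto (fun m : ℕ => 12 * 4 ^ (T + 1) *
      Real.exp (((1 + 3 * b) / K + 1) * Real.log 2) *
      Real.exp (-(κ * Real.log 2 / (2 * K) * (m : ℝ)))) atTop (𝓝 0) := by
    have := (Real.tendsto_exp_neg_atTop_nhds_zero.comp
      ((tendsto_natCast_atTop_atTop (R := ℝ)).const_mul_atTop
        (by positivity : 0 < κ * Real.log 2 / (2 * K)))).const_mul
          (12 * 4 ^ (T + 1) * Real.exp (((1 + 3 * b) / K + 1) * Real.log 2))
    simpa using this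
  obtain ⟨m₂, hm₂⟩ := (hlim.eventually (gt_mem_nhds hγ)).exists_forall_of_atTop
  obtain ⟨m₃, hm₃⟩ := exists_nat_ge (2 * (1 + 3 * (b : ℝ)) / κ)
  obtain ⟨m₄, hm₄⟩ := exists_nat_ge (22 * Real.log (36 * 8 ^ (T + 1)))
  refine ⟨b * (m₀ + m₁ + m₂ + m₃ + m₄ + 1), fun n hn m hm => ?_⟩
  have hm1 : b * m ≤ n := by
    rw [hm]
    exact Nat.mul_div_le n b
  have hm2 : n < b * (m + 1) := by
    have := Nat.lt_mul_div_succ n h2
    rw [← hm] at this
    exact this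
  have hmm : m₀ + m₁ + m₂ + m₃ + m₄ ≤ m := by
    by_contra hc
    push Not at hc
    have h6 : b * (m + 1) ≤ b * (m₀ + m₁ + m₂ + m₃ + m₄ + 1) := Nat.mul_le_mul_left _ (by omega)
    omega
  have hm₂' := hm₂ m (by omega)
  obtain ⟨g2, g3, g4⟩ := h5 m (by omega)
  clear hlim h5 hm₂
  obtain ⟨q, hmq⟩ : ∃ q : ℝ, (m : ℝ) = 3 * q := ⟨m / 3, by ring⟩
  have hm36 : (36 : ℝ) ≤ m := by exact_mod_cast g2
  have hm0 : (0 : ℝ) ≤ m := by linarith
  have hn0 : (0 : ℝ) ≤ n := Nat.cast_nonneg _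
  have hn1 : (n : ℝ) ≤ b * (m + 1) := by exact_mod_cast hm2.le
  have hn2 : (n : ℝ) ≤ 2 * b * m := by
    refine hn1.trans ?_
    have : (b : ℝ) * 1 ≤ b * m := mul_le_mul_of_nonneg_left (by linarith) hb0.le
    linarith
  obtain ⟨d₀, hd₀⟩ : ∃ d₀ : ℕ, d₀ = ⌊κ * m⌋₊ := ⟨_, rfl⟩
  have hd1 : (d₀ : ℝ) ≤ κ * m := by
    rw [hd₀]
    exact Nat.floor_le (by positivity)
  have hd2 : κ * m < d₀ + 1 := by
    rw [hd₀]
    exact Nat.lt_floor_add_one _
  obtain ⟨p, hp⟩ : ∃ p : ℕ, p = ⌊κ₂ * m⌋₊ := ⟨_, rfl⟩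
  have hp1 : (p : ℝ) ≤ κ₂ * m := by
    rw [hp]
    exact Nat.floor_le (by positivity)
  have hp2 : κ₂ * m < p + 1 := by
    rw [hp]
    exact Nat.lt_floor_add_one _
  clear hd₀ hp
  have hm₃' : 2 * (1 + 3 * (b : ℝ)) ≤ κ * m := by
    rw [div_le_iff₀ hκ0] at hm₃
    have h6 : (m₃ : ℝ) ≤ m := by exact_mod_cast (by omega : m₃ ≤ m)
    have h7 := mul_le_mul_of_nonneg_right h6 hκ0.le
    linarith
  have hm₄' : Real.log (36 * 8 ^ (T + 1)) ≤ 3 * m / 64 := by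
    have h6 : (m₄ : ℝ) ≤ m := by exact_mod_cast (by omega : m₄ ≤ m)
    linarith
  have hκm : κ * m ≤ 1 / 64 * m := mul_le_mul_of_nonneg_right hκ2 hm0
  have hκm1 : κ * m ≤ β' / 8 * m := mul_le_mul_of_nonneg_right hκ1 hm0
  have hκm3 : κ * m ≤ κ₂ * m := mul_le_mul_of_nonneg_right hκ3 hm0
  have hcn1 := cn_a hb0 hn0 hcA hn2
  have hcn2 := cn_b hb0 hK0 hκ0 hT0 hn0 hcB hn2
  have hcn3 := cn_c hb0 hlogt (by norm_num) hn0 hcC hn2
  have hcn4 := cn_c hb0 hlog96 (by norm_num) hn0 hcD hn2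
  refine ⟨by omega, by omega, by rw [mul_comm]; exact hm1, by
    rw [mul_comm m b]
    rw [mul_add, mul_one] at hm2
    omega, g3, hn2, d₀, p, ?_, ?_, ?_, Real.exp (3 * q / 8), Real.exp (-(q / 2 : ℝ)),
    Real.exp_pos _, Real.exp_le_one_iff.2 ?_, (Real.exp_pos _).le, ?_, ?_, ?_, ?_⟩
  · clear hcn1 hcn2 hcn3 hcn4 hm₂' hm₄'
    linarith
  · clear hcn1 hcn2 hcn3 hcn4 hm₂' hm₄'
    linarith
  · have h8 : (R : ℝ) * n ≤ T * p := by
      refine cover hT hm0 (Nat.cast_nonneg _) hn2 hT0 ?_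
      clear hcn1 hcn2 hcn3 hcn4 hm₂' hm₄'
      linarith
    exact_mod_cast h8
  · clear hcn1 hcn2 hcn3 hcn4 hm₂' hm₄'
    linarith
  · intro N N' hN0 hN'0 hN hN'
    have k1 := rows_a hb1 hm0 hn2 hd1 hκ4 hN
    have k2 := rows_b hb1 hm0 hn2 hd1 hp1 hκ3 hκ₂ hN'
    have k3 : N ≤ Real.exp (m / 64) := by
      refine k1.trans (Real.exp_le_exp.2 ?_)
      refine div_le_div_of_nonneg_left hm0 (by norm_num) ?_
      clear hcn1 hcn2 hcn3 hcn4 hm₂' hm₄' k1 k2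
      linarith
    refine ⟨?_, ?_⟩
    · have h6 := count_phases hN0 hN'0 hm0 k1 k2 hcn1 hm₄'
      refine h6.trans (le_of_eq ?_)
      congr 1
      rw [hmq]
    · refine small_g hmq hm36 ?_ hcn1 hN0 k3
      clear hcn1 hcn2 hcn3 hcn4 hm₂' hm₄' k1 k2
      linarith
  · have h6 : (2 : ℝ) ^ m * 2 ^ (3 * b) * 2 ^ (d₀ + 1) = 2 ^ (m + 3 * b + (d₀ + 1)) := by
      rw [pow_add 2 (m + 3 * b), pow_add 2 m]
    rw [h6]
    refine (two_pow_le _).trans (Real.exp_le_exp.2 ?_)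
    push_cast
    clear hcn1 hcn2 hcn3 hcn4 hm₂' hm₄'
    linarith
  · exact lt_of_le_of_lt (deep_m hK hd2 hcn2) hm₂'
  · intro d k r hd hk hr hr2
    have hcn1' : c * n ≤ q / 8 := by
      clear hcn2 hcn3 hcn4 hm₂' hm₄'
      linarith
    have hr3 : (r : ℝ) ≤ 2 * Real.exp (q / 2) := by
      have e2 : Real.exp (c * n) ≤ Real.exp (q / 2) := Real.exp_le_exp.2 (by
        clear hcn2 hcn3 hcn4 hm₂' hm₄'
        linarith)
      have e3 : 1 ≤ Real.exp ((q : ℝ) / 2) := Real.one_le_exp (by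
        clear hcn2 hcn3 hcn4 hm₂' hm₄'
        linarith)
      clear hcn2 hcn3 hcn4 hm₂' hm₄'
      linarith
    have hq12 : (12 : ℝ) ≤ q := by
      clear hcn2 hcn3 hcn4 hm₂' hm₄'
      linarith
    obtain ⟨f1, fA, fD, f2, f3⟩ := g4 (c * n) q hmq (by
      clear hcn2 hcn3 hcn4 hm₂' hm₄'
      linarith) d k r hd hk hr hr3
    refine ⟨f1, lt_of_le_of_lt f2 (by linarith only [hγ]), fun J w hJ hw => f3 _ ?_⟩
    refine cons_d hΔ hb1 hmq hq12 hcn1' hJ hw ?_ ?_ fA (Real.sqrt_nonneg _) fD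
    · refine hcn3.trans ?_
      rw [hmq]
      linarith only [hq12]
    · rw [hmq] at hcn4
      linarith only [hcn4, hq12]

end AVD
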