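import Pool.Agent.AVD.Phase
import Pool.Agent.BB.Core6

/-!
# AVD: search dags, followed for a bounded number of steps
-/

set_option autoImplicit false

open scoped BigOperators

namespace AVD

open Finset BB

/-- the assignment `x` extends the partial assignment `ρ` -/
def Ext {n : ℕ} (x : Fin n → Bool) (ρ : Fin n → Option Bool) : Prop :=
  ∀ v, ρ v = none ∨ ρ v = some (x v)

theorem ext_none {n : ℕ} (x : Fin n → Bool) : Ext x fun _ => none := fun _ => Or.inl rfl

theorem ext_update {n : ℕ} {x : Fin n → Bool} {ρ : Fin n → Option Bool} (h : Ext x ρ)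
    (v : Fin n) : Ext x (Function.update ρ v (some (x v))) := by
  intro u
  by_cases hu : u = v
  · subst hu
    right
    rw [Function.update_self]
  · rw [Function.update_of_ne hu]
    exact h u

theorem dom_update {n : ℕ} (ρ : Fin n → Option Bool) (v : Fin n) (a : Bool) :
    (dom (Function.update ρ v (some a))).card ≤ (dom ρ).card + 1 := by
  refine (card_le_card (t := insert v (dom ρ)) fun u hu => ?_).trans (card_insert_le _ _)
  rw [mem_insert]
  by_cases huv : u = v
  · exact Or.inl huv
  · right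
    rw [mem_dom, Function.update_of_ne huv] at hu
    rwa [mem_dom]

theorem dom_none {n : ℕ} : (dom (fun _ : Fin n => (none : Option Bool))).card = 0 := by
  simp [dom]

section walk

variable {n J len : ℕ} (label : Fin len → Fin n → Option Bool) (rank : Fin len → ℕ)
  (move : Fin len → Fin J ⊕ (Fin n × (Bool → Fin len)))

/-- the search dag is followed for `p` steps, but no further than to a label with `d` variables;
the second component remembers the values which have been read -/
def walk (d : ℕ) (x : Fin n → Bool) :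
    ℕ → Fin len → (Fin n → Option Bool) → Fin len × (Fin n → Option Bool)
  | 0, u, σ => (u, σ)
  | p + 1, u, σ => match move u with
    | .inl _ => (u, σ)
    | .inr (v, c) => if d ≤ (dom (label u)).card then (u, σ) else
        walk d x p (c (x v)) (Function.update σ v (some (x v)))

variable {label rank move}

theorem walk_zero (d : ℕ) (x : Fin n → Bool) (u : Fin len) (σ : Fin n → Option Bool) :
    walk label move d x 0 u σ = (u, σ) := rfl

theorem walk_leaf {d : ℕ} {x : Fin n → Bool} {p : ℕ} {u : Fin len} {σ : Fin n → Option Bool}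
    {j : Fin J} (h : move u = .inl j) : walk label move d x (p + 1) u σ = (u, σ) := by
  rw [walk, h]

theorem walk_deep {d : ℕ} {x : Fin n → Bool} {p : ℕ} {u : Fin len} {σ : Fin n → Option Bool}
    (h : d ≤ (dom (label u)).card) : walk label move d x (p + 1) u σ = (u, σ) := by
  rw [walk]
  rcases hm : move u with j | ⟨v, c⟩
  · rfl
  · simp only [if_pos h]

theorem walk_succ {d : ℕ} {x : Fin n → Bool} {p : ℕ} {u : Fin len} {σ : Fin n → Option Bool}
    {v : Fin n} {c : Bool → Fin len} (h : move u = .inr (v, c))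
    (hd : ¬ d ≤ (dom (label u)).card) :
    walk label move d x (p + 1) u σ
      = walk label move d x p (c (x v)) (Function.update σ v (some (x v))) := by
  rw [walk, h]
  simp only [if_neg hd]

/-- the three cases of a step -/
theorem walk_cases (label : Fin len → Fin n → Option Bool)
    (move : Fin len → Fin J ⊕ (Fin n × (Bool → Fin len))) (d : ℕ) (u : Fin len) :
    (∃ j, move u = .inl j) ∨ d ≤ (dom (label u)).card ∨
      ∃ v c, move u = .inr (v, c) ∧ ¬ d ≤ (dom (label u)).card := by
  by_cases hd : d ≤ (dom (label u)).card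
  · exact Or.inr (Or.inl hd)
  · rcases hm : move u with j | ⟨v, c⟩
    · exact Or.inl ⟨j, rfl⟩
    · exact Or.inr (Or.inr ⟨v, c, rfl, hd⟩)

/-- the rules of a search dag -/
def Rules (label : Fin len → Fin n → Option Bool) (rank : Fin len → ℕ)
    (move : Fin len → Fin J ⊕ (Fin n × (Bool → Fin len))) : Prop :=
  ∀ u v c, move u = .inr (v, c) → ∀ a, rank (c a) < rank u ∧
    ∀ w b, label (c a) w = some b → Function.update (label u) v (some a) w = some b

theorem Rules.ext (hR : Rules label rank move) {u : Fin len} {v : Fin n} {c : Bool → Fin len}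
    (hm : move u = .inr (v, c)) {x : Fin n → Bool} (hx : Ext x (label u)) :
    Ext x (label (c (x v))) := by
  intro w
  rcases hw : label (c (x v)) w with _ | b
  · exact Or.inl rfl
  · right
    have h1 := (hR u v c hm (x v)).2 w b hw
    rcases ext_update hx v w with h2 | h2
    · rw [h2] at h1
      exact absurd h1 (by simp)
    · rw [h2] at h1
      rw [← h1]

theorem Rules.card (hR : Rules label rank move) {u : Fin len} {v : Fin n} {c : Bool → Fin len}
    (hm : move u = .inr (v, c)) (a : Bool) :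
    (dom (label (c a))).card ≤ (dom (label u)).card + 1 := by
  refine (card_le_card fun w hw => ?_).trans (dom_update (label u) v a)
  rw [mem_dom, Option.isSome_iff_exists] at hw
  obtain ⟨b, hb⟩ := hw
  rw [mem_dom, (hR u v c hm a).2 w b hb]
  rfl

theorem walk_ext (hR : Rules label rank move) (d : ℕ) (x : Fin n → Bool) :
    ∀ (p : ℕ) (u : Fin len) (σ : Fin n → Option Bool), Ext x (label u) →
      Ext x (label (walk label move d x p u σ).1) := by
  intro p
  induction p with
  | zero => exact fun u σ h => h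
  | succ p ih =>
    intro u σ h
    rcases walk_cases label move d u with ⟨j, hj⟩ | hd | ⟨v, c, hm, hd⟩
    · rw [walk_leaf hj]
      exact h
    · rw [walk_deep hd]
      exact h
    · rw [walk_succ hm hd]
      exact ih _ _ (hR.ext hm h)

theorem walk_read (d : ℕ) (x : Fin n → Bool) :
    ∀ (p : ℕ) (u : Fin len) (σ : Fin n → Option Bool), Ext x σ →
      Ext x (walk label move d x p u σ).2 := by
  intro p
  induction p with
  | zero => exact fun u σ h => h
  | succ p ih =>
    intro u σ h
    rcases walk_cases label move d u with ⟨j, hj⟩ | hd | ⟨v, c, hm, hd⟩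
    · rw [walk_leaf hj]
      exact h
    · rw [walk_deep hd]
      exact h
    · rw [walk_succ hm hd]
      exact ih _ _ (ext_update h v)

theorem walk_keeps (d : ℕ) (x : Fin n → Bool) :
    ∀ (p : ℕ) (u : Fin len) (σ : Fin n → Option Bool), ∀ v, σ v = some (x v) →
      (walk label move d x p u σ).2 v = some (x v) := by
  intro p
  induction p with
  | zero => exact fun u σ v h => h
  | succ p ih =>
    intro u σ v h
    rcases walk_cases label move d u with ⟨j, hj⟩ | hd | ⟨v', c, hm, hd⟩
    · rw [walk_leaf hj]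
      exact h
    · rw [walk_deep hd]
      exact h
    · rw [walk_succ hm hd]
      refine ih _ _ v ?_
      by_cases hv : v = v'
      · subst hv
        rw [Function.update_self]
      · rw [Function.update_of_ne hv]
        exact h

theorem walk_eq (d : ℕ) (x x' : Fin n → Bool) :
    ∀ (p : ℕ) (u : Fin len) (σ : Fin n → Option Bool), Ext x' (walk label move d x p u σ).2 →
      walk label move d x' p u σ = walk label move d x p u σ := by
  intro p
  induction p with
  | zero => exact fun u σ _ => rfl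
  | succ p ih =>
    intro u σ h
    rcases walk_cases label move d u with ⟨j, hj⟩ | hd | ⟨v, c, hm, hd⟩
    · rw [walk_leaf hj, walk_leaf hj]
    · rw [walk_deep hd, walk_deep hd]
    · rw [walk_succ hm hd] at h
      rw [walk_succ hm hd, walk_succ hm hd]
      have h1 : (walk label move d x p (c (x v)) (Function.update σ v (some (x v)))).2 v
          = some (x v) := walk_keeps d x p _ _ v (Function.update_self _ _ _)
      have h2 : x' v = x v := by
        rcases h v with h3 | h3
        · rw [h1] at h3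
          exact absurd h3 (by simp)
        · rw [h1] at h3
          exact (Option.some.inj h3).symm
      rw [h2]
      exact ih _ _ h

theorem walk_card_label (hR : Rules label rank move) (d : ℕ) (x : Fin n → Bool) :
    ∀ (p : ℕ) (u : Fin len) (σ : Fin n → Option Bool), (dom (label u)).card ≤ d →
      (dom (label (walk label move d x p u σ).1)).card ≤ d := by
  intro p
  induction p with
  | zero => exact fun u σ h => h
  | succ p ih =>
    intro u σ h
    rcases walk_cases label move d u with ⟨j, hj⟩ | hd | ⟨v, c, hm, hd⟩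
    · rw [walk_leaf hj]
      exact h
    · rw [walk_deep hd]
      exact h
    · rw [walk_succ hm hd]
      refine ih _ _ ((hR.card hm (x v)).trans ?_)
      omega

theorem walk_card_read (d : ℕ) (x : Fin n → Bool) :
    ∀ (p : ℕ) (u : Fin len) (σ : Fin n → Option Bool),
      (dom (walk label move d x p u σ).2).card ≤ (dom σ).card + p := by
  intro p
  induction p with
  | zero => exact fun u σ => le_rfl
  | succ p ih =>
    intro u σ
    rcases walk_cases label move d u with ⟨j, hj⟩ | hd | ⟨v, c, hm, hd⟩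
    · rw [walk_leaf hj]
      exact Nat.le_add_right _ _
    · rw [walk_deep hd]
      exact Nat.le_add_right _ _
    · rw [walk_succ hm hd]
      have h1 := dom_update σ v (x v)
      have h2 := ih (c (x v)) (Function.update σ v (some (x v)))
      omega

theorem walk_end (hR : Rules label rank move) (d : ℕ) (x : Fin n → Bool) :
    ∀ (p : ℕ) (u : Fin len) (σ : Fin n → Option Bool),
      (∃ j, move (walk label move d x p u σ).1 = .inl j) ∨
      d ≤ (dom (label (walk label move d x p u σ).1)).card ∨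
      rank (walk label move d x p u σ).1 + p ≤ rank u := by
  intro p
  induction p with
  | zero => exact fun u σ => Or.inr (Or.inr le_rfl)
  | succ p ih =>
    intro u σ
    rcases walk_cases label move d u with ⟨j, hj⟩ | hd | ⟨v, c, hm, hd⟩
    · rw [walk_leaf hj]
      exact Or.inl ⟨j, hj⟩
    · rw [walk_deep hd]
      exact Or.inr (Or.inl hd)
    · rw [walk_succ hm hd]
      rcases ih (c (x v)) (Function.update σ v (some (x v))) with h | h | h
      · exact Or.inl h
      · exact Or.inr (Or.inl h)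
      · refine Or.inr (Or.inr ?_)
        have := (hR u v c hm (x v)).1
        omega

/-- if every query can be answered in such a way that the label stays in a set of good labels, then
there is a leaf with a good label -/
theorem good_leaf (hR : Rules label rank move) (𝓖 : Set (Fin n → Option Bool))
    (h𝓖 : ∀ ρ ∈ 𝓖, ∀ v, ∃ a : Bool, ∀ w ∈ (univ : Finset (Fin len)).image label,
      (∀ u, w u = none ∨ w u = Function.update ρ v (some a) u) → w ∈ 𝓖)
    (root : Fin len) (hroot : label root ∈ 𝓖) : ∃ u j, move u = .inl j ∧ label u ∈ 𝓖 := by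
  have key : ∀ (N : ℕ) (u : Fin len), rank u ≤ N → label u ∈ 𝓖 →
      ∃ u j, move u = .inl j ∧ label u ∈ 𝓖 := by
    intro N
    induction N with
    | zero =>
      intro u hu hg
      rcases hm : move u with j | ⟨v, c⟩
      · exact ⟨u, j, hm, hg⟩
      · have := (hR u v c hm true).1
        omega
    | succ N ih =>
      intro u hu hg
      rcases hm : move u with j | ⟨v, c⟩
      · exact ⟨u, j, hm, hg⟩
      · obtain ⟨a, ha⟩ := h𝓖 _ hg v
        refine ih (c a) ?_ (ha _ (mem_image_of_mem label (mem_univ _)) fun w => ?_)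
        · have := (hR u v c hm a).1
          omega
        · rcases hw : label (c a) w with _ | b
          · exact Or.inl rfl
          · exact Or.inr ((hR u v c hm a).2 w b hw).symm
  exact key _ root le_rfl hroot

/-- the class of an assignment: what has been read, the label of the end of the walk, and the
relaxation if the end is a leaf -/
def cls (label : Fin len → Fin n → Option Bool)
    (move : Fin len → Fin J ⊕ (Fin n × (Bool → Fin len))) (d p : ℕ) (u : Fin len)
    (x : Fin n → Bool) : (Fin n → Option Bool) × (Fin n → Option Bool) × Option (Fin J) :=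
  ((walk label move d x p u fun _ => none).2,
    label (walk label move d x p u fun _ => none).1,
    (move (walk label move d x p u fun _ => none).1).getLeft?)

end walk

theorem succ_le_two_pow (k : ℕ) : (k : ℝ) + 1 ≤ 2 ^ (k + 1) := by
  have : k + 1 < 2 ^ (k + 1) := Nat.lt_two_pow_self
  exact_mod_cast this.le

/-- the numbers -/
theorem al_le (N N' J Jx γ' θ P : ℝ) (k : ℕ) (hN : 1 ≤ N) (hN' : 0 ≤ N') (hJ0 : 0 ≤ J)
    (hJ : J ≤ Jx) (hJx : 1 ≤ Jx) (hγ' : 0 ≤ γ') (hθ : 0 ≤ θ)
    (hP : (8 * N) ^ (k + 1) * (N' * N * Jx + 2) ≤ P) :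
    al N (N' * (N * (J + 1)) * γ' + N * ((N' * (N * (J + 1)) + 2) * θ)) k
      ≤ P * γ' + P * θ := by
  have hN0 : 0 ≤ N := by linarith
  have hJx0 : 0 ≤ Jx := by linarith
  have hNN : 0 ≤ N' * N := mul_nonneg hN' hN0
  have hA : 0 ≤ N' * N * Jx := mul_nonneg hNN hJx0
  have hC : 0 ≤ N' * (N * (J + 1)) := mul_nonneg hN' (mul_nonneg hN0 (by linarith))
  generalize hCdef : N' * (N * (J + 1)) = C at hC ⊢
  have h0 : 0 ≤ (C + 2) * (γ' + θ) := mul_nonneg (by linarith) (by linarith)
  have h1 : C * γ' + N * ((C + 2) * θ) ≤ N * ((C + 2) * (γ' + θ)) := by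
    have h2 : C * γ' ≤ (C + 2) * γ' := mul_le_mul_of_nonneg_right (by linarith) hγ'
    have h3 : (C + 2) * γ' ≤ N * ((C + 2) * γ') :=
      le_mul_of_one_le_left (mul_nonneg (by linarith) hγ') hN
    calc C * γ' + N * ((C + 2) * θ) ≤ N * ((C + 2) * γ') + N * ((C + 2) * θ) := by linarith
      _ = N * ((C + 2) * (γ' + θ)) := by ring
  have h4 : C + 2 ≤ 2 * (N' * N * Jx + 2) := by
    have h5 : J + 1 ≤ 2 * Jx := by linarith
    have h6 := mul_le_mul_of_nonneg_left h5 hNN
    have h7 : C = N' * N * (J + 1) := by rw [← hCdef]; ring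
    rw [h7]
    linarith
  have hk := succ_le_two_pow k
  have h9 : (2 : ℝ) ≤ 4 ^ (k + 1) := by
    calc (2 : ℝ) ≤ 4 ^ 1 := by norm_num
      _ ≤ 4 ^ (k + 1) := pow_le_pow_right₀ (by norm_num) (by omega)
  have hpN : 0 ≤ N ^ k := pow_nonneg hN0 k
  have h2N : 0 ≤ (2 * N) ^ (k + 1) := pow_nonneg (by linarith) _
  have hγθ : 0 ≤ γ' + θ := by linarith
  have hB : 0 ≤ (2 * N) ^ (k + 1) * (N' * N * Jx + 2) * (γ' + θ) :=
    mul_nonneg (mul_nonneg h2N (by linarith)) hγθ
  unfold al
  calc ((k : ℝ) + 1) * N ^ k * (C * γ' + N * ((C + 2) * θ))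
      ≤ ((k : ℝ) + 1) * N ^ k * (N * ((C + 2) * (γ' + θ))) :=
        mul_le_mul_of_nonneg_left h1 (mul_nonneg (by positivity) hpN)
    _ ≤ 2 ^ (k + 1) * N ^ k * (N * ((C + 2) * (γ' + θ))) :=
        mul_le_mul_of_nonneg_right (mul_le_mul_of_nonneg_right hk hpN) (mul_nonneg hN0 h0)
    _ = (2 * N) ^ (k + 1) * (C + 2) * (γ' + θ) := by
        rw [mul_pow, pow_succ N k]
        ring
    _ ≤ (2 * N) ^ (k + 1) * (2 * (N' * N * Jx + 2)) * (γ' + θ) :=
        mul_le_mul_of_nonneg_right (mul_le_mul_of_nonneg_left h4 h2N) hγθ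
    _ = 2 * ((2 * N) ^ (k + 1) * (N' * N * Jx + 2) * (γ' + θ)) := by ring
    _ ≤ 4 ^ (k + 1) * ((2 * N) ^ (k + 1) * (N' * N * Jx + 2) * (γ' + θ)) :=
        mul_le_mul_of_nonneg_right h9 hB
    _ = (8 * N) ^ (k + 1) * (N' * N * Jx + 2) * (γ' + θ) := by
        rw [show 8 * N = 4 * (2 * N) by ring, mul_pow 4 (2 * N) (k + 1)]
        ring
    _ ≤ P * (γ' + θ) := mul_le_mul_of_nonneg_right hP hγθ
    _ = P * γ' + P * θ := by ring

theorem be_le (s ν : ℝ) (hs : 0 ≤ s) (hν : 0 ≤ ν) (k : ℕ) :
    be s ν k ≤ (2 * s) ^ (k + 1) * ν := by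
  unfold be
  rw [mul_pow]
  exact mul_le_mul_of_nonneg_right
    (mul_le_mul_of_nonneg_right (succ_le_two_pow k) (pow_nonneg hs _)) hν

open Classical in
/-- **Search dags.** The mass of a rectangle `𝒮 × 𝒳` if there is a search dag for each row `S` of
`𝒮`. -/
theorem dag_bound {Y X : Type} [Fintype Y] [Fintype X] {n J : ℕ} (mu : Y → X → ℝ)
    (T θ γ' ν P Jx : ℝ) (hT : 0 ≤ T) (hθ : 0 ≤ θ) (hγ' : 0 ≤ γ') (hν : 0 ≤ ν) (d p k : ℕ)
    (hp : 1 ≤ p) (hJx : 1 ≤ Jx) (hJ : (J : ℝ) ≤ Jx)
    (hP : (8 * (((univ : Finset (Fin n → Option Bool)).filter fun ρ =>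
        (dom ρ).card ≤ d).card : ℝ)) ^ (k + 1) *
      ((((univ : Finset (Fin n → Option Bool)).filter fun ρ => (dom ρ).card ≤ d + p).card : ℝ) *
        (((univ : Finset (Fin n → Option Bool)).filter fun ρ => (dom ρ).card ≤ d).card : ℝ) * Jx
        + 2) ≤ P)
    (xx : X → Fin n → Bool) (𝒮 : Finset Y) (𝒳 : Finset X)
    (len : Y → ℕ) (label : ∀ S, Fin (len S) → Fin n → Option Bool)
    (rank : ∀ S, Fin (len S) → ℕ) (move : ∀ S, Fin (len S) → Fin J ⊕ (Fin n × (Bool → Fin (len S))))
    (root : ∀ S, Fin (len S))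
    (hR : ∀ S ∈ 𝒮, Rules (label S) (rank S) (move S))
    (hroot : ∀ S ∈ 𝒮, label S (root S) = fun _ => none)
    (hrank : ∀ S ∈ 𝒮, rank S (root S) ≤ k * p)
    (hlen : ∀ S ∈ 𝒮, (len S : ℝ) ≤ Jx)
    (hcert : ∀ (ρ : Fin n → Option Bool) (j : Fin J) (𝒮' : Finset Y) (𝒳' : Finset X),
      (∀ S ∈ 𝒮', S ∈ 𝒮 ∧ ∃ u, label S u = ρ ∧ move S u = .inl j) →
      (∀ x ∈ 𝒳', x ∈ 𝒳 ∧ Ext (xx x) ρ) →
      ∑ S ∈ 𝒮', ∑ x ∈ 𝒳', mu S x ≤ γ' * (Fintype.card Y * T))
    (hdeep : ∀ ρ : Fin n → Option Bool, d ≤ (dom ρ).card → (dom ρ).card ≤ d → ∀ S,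
      ∑ x ∈ univ.filter (fun x => Ext (xx x) ρ), mu S x ≤ T * ν)
    (hrect : ∀ (u : X → ℝ) (v : Y → ℝ), (∀ x, 0 ≤ u x ∧ u x ≤ 1) → (∀ S, 0 ≤ v S ∧ v S ≤ 1) →
      -(θ * (Fintype.card Y * T)) ≤ ∑ S, ∑ x, v S * (u x * mu S x)) :
    ∑ S ∈ 𝒮, ∑ x ∈ 𝒳, mu S x
      ≤ (P * γ' + P * θ + (2 * Jx) ^ (k + 1) * ν) * (Fintype.card Y * T) := by
  set Ls : Finset (Fin n → Option Bool) := univ.filter fun ρ => (dom ρ).card ≤ d with hLs
  set Ls' : Finset (Fin n → Option Bool) := univ.filter fun ρ => (dom ρ).card ≤ d + p with hLs'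
  have hnone : (fun _ : Fin n => (none : Option Bool)) ∈ Ls := by
    rw [hLs, mem_filter, dom_none]
    exact ⟨mem_univ _, Nat.zero_le _⟩
  set N : ℝ := (Ls.card : ℝ) with hN
  set N' : ℝ := (Ls'.card : ℝ) with hN'
  have hN1 : 1 ≤ N := by
    rw [hN]
    exact_mod_cast card_pos.2 ⟨_, hnone⟩
  have hN'0 : 0 ≤ N' := Nat.cast_nonneg _
  have hph := phases mu T θ γ' ν N (N' * (N * (J + 1))) Jx hT hθ hγ' hν hN1 hJx 𝒮 𝒳
    (fun ρ x => Ext (xx x) ρ)
    (fun (c : (Fin n → Option Bool) × (Fin n → Option Bool) × Option (Fin J)) x =>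
      Ext (xx x) c.1 ∧ Ext (xx x) c.2.1)
    (fun c => c.2.1) (fun c => c.2.2.isSome) (fun ρ => d ≤ (dom ρ).card)
    (fun S c => ∃ u j, label S u = c.2.1 ∧ c.2.2 = some j ∧ move S u = .inl j)
    (fun i ρ S => ∃ u, label S u = ρ ∧ rank S u ≤ i * p)
    Ls (Ls' ×ˢ (Ls ×ˢ univ)) le_rfl
    (by
      rw [card_product, card_product, card_univ, Fintype.card_option, Fintype.card_fin]
      push_cast
      exact le_rfl)
    (fun c x h => h.2) ?_ ?_ ?_
    (fun 𝒮' 𝒳' => rect_of_weights mu _ hrect 𝒮' 𝒳')
    k (fun _ => none) hnone 𝒮 (Subset.refl _) (fun S hS => ⟨root S, hroot S hS, hrank S hS⟩)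
  · -- the numbers
    have h1 : 𝒳.filter (fun x => Ext (xx x) fun _ => none) = 𝒳 :=
      filter_true_of_mem fun x _ => ext_none _
    rw [h1] at hph
    refine hph.trans ?_
    have hW : 0 ≤ (Fintype.card Y : ℝ) * T := mul_nonneg (Nat.cast_nonneg _) hT
    have hJx0 : 0 ≤ Jx := by linarith
    have h2 := al_le N N' J Jx γ' θ P k hN1 hN'0 (Nat.cast_nonneg _) hJ hJx hγ' hθ hP
    have h4 : (𝒮.card : ℝ) * T ≤ Fintype.card Y * T :=
      mul_le_mul_of_nonneg_right (by exact_mod_cast card_le_univ 𝒮) hT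
    have h5 : be Jx ν k * (𝒮.card * T) ≤ (2 * Jx) ^ (k + 1) * ν * (Fintype.card Y * T) :=
      mul_le_mul (be_le Jx ν hJx0 hν k) h4 (mul_nonneg (Nat.cast_nonneg _) hT)
        (mul_nonneg (pow_nonneg (by linarith) _) hν)
    have h6 := mul_le_mul_of_nonneg_right h2 hW
    linarith
  · -- one phase
    rintro i ρ hρ S hS ⟨u, rfl, hu⟩
    have hcard : (dom (label S u)).card ≤ d := (mem_filter.1 hρ).2
    refine ⟨fun x => cls (label S) (move S) d p u (xx x), ?_, ?_, ?_, ?_, ?_⟩
    · intro x hx
      have h1 := walk_card_label (hR S hS) d (xx x) p u (fun _ => none) hcard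
      have h2 := walk_card_read (label := label S) (move := move S) d (xx x) p u (fun _ => none)
      rw [dom_none, zero_add] at h2
      have h3 : (cls (label S) (move S) d p u (xx x)).2.1 ∈ Ls :=
        mem_filter.2 ⟨mem_univ _, h1⟩
      refine ⟨⟨walk_read d (xx x) p u _ (ext_none _), walk_ext (hR S hS) d (xx x) p u _ hx⟩, ?_, h3⟩
      refine mem_product.2 ⟨mem_filter.2 ⟨mem_univ _, h2.trans (by omega)⟩,
        mem_product.2 ⟨h3, mem_univ _⟩⟩
    · intro x x' _ _ h
      have h1 := walk_eq d (xx x) (xx x') p u (fun _ => none) h.1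
      simp only [cls, h1]
    · intro x _ hl
      have h1 : ((move S (walk (label S) (move S) d (xx x) p u fun _ => none).1).getLeft?).isSome
          = true := hl
      rcases hm : move S (walk (label S) (move S) d (xx x) p u fun _ => none).1 with j | q
      · exact ⟨_, j, rfl, by simp only [cls, hm, Sum.getLeft?_inl], hm⟩
      · rw [hm] at h1
        exact absurd h1 (by simp)
    · intro x _ hl hd
      have h1 : ¬ ((move S (walk (label S) (move S) d (xx x) p u fun _ => none).1).getLeft?).isSome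
          = true := hl
      rcases walk_end (hR S hS) d (xx x) p u (fun _ => none) with ⟨j, hj⟩ | h | h
      · rw [hj] at h1
        exact absurd rfl h1
      · exact absurd h hd
      · rcases i with _ | i
        · rw [zero_mul] at hu
          omega
        · refine ⟨i, rfl, _, rfl, ?_⟩
          rw [Nat.succ_mul] at hu
          omega
    · intro 𝒬 h𝒬
      refine le_trans ?_ (hlen S hS)
      have h1 : 𝒬 ⊆ univ.image (label S) := by
        intro w hw
        obtain ⟨x, -, hx⟩ := h𝒬 w hw
        exact mem_image.2 ⟨_, mem_univ _, hx⟩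
      have h2 := (card_le_card h1).trans card_image_le
      rw [card_univ, Fintype.card_fin] at h2
      exact_mod_cast h2
  · -- leaves
    rintro ⟨σ, ρ, o⟩ - hl 𝒮' 𝒳' h𝒮' h𝒳'
    rcases o with _ | j
    · exact absurd hl (by simp)
    refine hcert ρ j 𝒮' 𝒳' (fun S hS => ?_) fun x hx => ⟨(h𝒳' x hx).1, (h𝒳' x hx).2.2⟩
    obtain ⟨h1, u, j', h2, h3, h4⟩ := h𝒮' S hS
    have h5 : j = j' := Option.some.inj h3
    exact ⟨h1, u, h2, by rw [h4, h5]⟩
  · -- deep labels
    intro ρ hρ hd S
    exact hdeep ρ hd (mem_filter.1 hρ).2 S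

end AVD
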