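import Mathlib

/-!
# AVD: search dags in phases

An upper bound for the mass of the rectangle of a state (rows whose dag has a node with a given
label). In one phase the search is followed for a bounded number of steps.
-/

set_option autoImplicit false

open scoped BigOperators

namespace AVD

open Finset

/-- the mass of a rectangle, from the weighted form -/
theorem rect_of_weights {Y X : Type} [Fintype Y] [Fintype X] (mu : Y → X → ℝ) (B : ℝ)
    (hrect : ∀ (u : X → ℝ) (v : Y → ℝ), (∀ x, 0 ≤ u x ∧ u x ≤ 1) → (∀ S, 0 ≤ v S ∧ v S ≤ 1) →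
      -B ≤ ∑ S, ∑ x, v S * (u x * mu S x)) (𝒮 : Finset Y) (𝒳 : Finset X) :
    -B ≤ ∑ S ∈ 𝒮, ∑ x ∈ 𝒳, mu S x := by
  classical
  refine (hrect (fun x => if x ∈ 𝒳 then 1 else 0) (fun S => if S ∈ 𝒮 then 1 else 0)
    (fun x => by split_ifs <;> norm_num) (fun S => by split_ifs <;> norm_num)).trans
    (le_of_eq ?_)
  have e1 : ∀ S, ∑ x, (if S ∈ 𝒮 then (1 : ℝ) else 0) * ((if x ∈ 𝒳 then 1 else 0) * mu S x)
      = if S ∈ 𝒮 then ∑ x ∈ 𝒳, mu S x else 0 := by
    intro S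
    split_ifs with h
    · simp [sum_ite_mem]
    · simp
  rw [sum_congr rfl fun S _ => e1 S, sum_ite_mem, univ_inter]

/-- the bound for `k` phases: the part which is proportional to the measure of everything -/
noncomputable def al (N E : ℝ) (k : ℕ) : ℝ := (k + 1) * N ^ k * E

/-- the bound for `k` phases: the part which is proportional to the number of rows -/
noncomputable def be (s ν : ℝ) (k : ℕ) : ℝ := (k + 1) * s ^ (k + 1) * ν

theorem al_nonneg {N E : ℝ} (hN : 0 ≤ N) (hE : 0 ≤ E) (k : ℕ) : 0 ≤ al N E k := by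
  unfold al
  positivity

theorem be_nonneg {s ν : ℝ} (hs : 0 ≤ s) (hν : 0 ≤ ν) (k : ℕ) : 0 ≤ be s ν k := by
  unfold be
  positivity

theorem al_zero (N E : ℝ) : al N E 0 = E := by simp [al]

theorem be_zero (s ν : ℝ) : be s ν 0 = s * ν := by simp [be]

theorem al_succ {N E : ℝ} (hN : 1 ≤ N) (hE : 0 ≤ E) (k : ℕ) :
    N * al N E k + E ≤ al N E (k + 1) := by
  have h1 : (1 : ℝ) ≤ N ^ (k + 1) := one_le_pow₀ hN
  have h2 : E ≤ N ^ (k + 1) * E := by nlinarith
  have h3 : al N E (k + 1) = N * al N E k + N ^ (k + 1) * E := by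
    unfold al
    push_cast
    ring
  rw [h3]
  linarith

theorem be_succ {s ν : ℝ} (hs : 1 ≤ s) (hν : 0 ≤ ν) (k : ℕ) :
    s * (be s ν k + ν) ≤ be s ν (k + 1) := by
  have h1 : (1 : ℝ) ≤ s ^ (k + 1) := one_le_pow₀ hs
  have h2 : s ≤ s ^ (k + 1) * s := by nlinarith
  have h3 : be s ν (k + 1) = s * be s ν k + s ^ (k + 1) * s * ν := by
    unfold be
    push_cast
    ring
  rw [h3]
  nlinarith [mul_le_mul_of_nonneg_right h2 hν]

section

variable {Y X L Cl : Type} [Fintype Y] [Fintype X] [DecidableEq L] [DecidableEq Cl]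

open Classical in
/-- the decomposition of the mass of a state into the classes of the phase -/
theorem classes_sum (mu : Y → X → ℝ) (Ag : X → Prop) (cube : Cl → X → Prop) (Cs : Finset Cl)
    (𝒮 : Finset Y) (𝒳 : Finset X) (h𝒳 : ∀ x ∈ 𝒳, Ag x) (Θ : Y → X → Cl)
    (h1 : ∀ S ∈ 𝒮, ∀ x, Ag x → cube (Θ S x) x ∧ Θ S x ∈ Cs)
    (h2 : ∀ S ∈ 𝒮, ∀ x x', Ag x → Ag x' → cube (Θ S x) x' → Θ S x' = Θ S x) :
    ∑ S ∈ 𝒮, ∑ x ∈ 𝒳, mu S x = ∑ c ∈ Cs, ∑ S ∈ 𝒮.filter (fun S => ∃ x, Ag x ∧ Θ S x = c),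
      ∑ x ∈ 𝒳.filter (fun x => cube c x), mu S x := by
  have e1 : ∀ S ∈ 𝒮, ∑ x ∈ 𝒳, mu S x = ∑ c ∈ Cs, if ∃ x, Ag x ∧ Θ S x = c then
      ∑ x ∈ 𝒳.filter (fun x => cube c x), mu S x else 0 := by
    intro S hS
    rw [← sum_fiberwise_of_maps_to (fun x hx => (h1 S hS x (h𝒳 x hx)).2)]
    refine sum_congr rfl fun c _ => ?_
    split_ifs with h
    · obtain ⟨x₀, hx₀, rfl⟩ := h
      refine sum_congr ?_ fun _ _ => rfl
      ext x
      simp only [mem_filter]
      refine and_congr_right fun hx => ⟨fun h => ?_, fun h => h2 S hS x₀ x hx₀ (h𝒳 x hx) h⟩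
      rw [← h]
      exact (h1 S hS x (h𝒳 x hx)).1
    · refine sum_eq_zero fun x hx => ?_
      rw [mem_filter] at hx
      exact absurd ⟨x, h𝒳 x hx.1, hx.2⟩ h
  rw [sum_congr rfl e1, sum_comm]
  refine sum_congr rfl fun c _ => ?_
  rw [sum_filter]

open Classical in
/-- **Phases.** `Has k ρ S`: the dag of the row `S` has a node with the label `ρ` which is at most
`k` phases above the leaves. -/
theorem phases (mu : Y → X → ℝ) (T θ γ' ν N C s : ℝ) (hT : 0 ≤ T) (hθ : 0 ≤ θ) (hγ' : 0 ≤ γ')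
    (hν : 0 ≤ ν) (hN : 1 ≤ N) (hs : 1 ≤ s) (𝒮₀ : Finset Y) (𝒳 : Finset X)
    (agree : L → X → Prop) (cube : Cl → X → Prop) (lab : Cl → L) (leaf : Cl → Prop)
    (deep : L → Prop) (LeafOK : Y → Cl → Prop) (Has : ℕ → L → Y → Prop)
    (Ls : Finset L) (Cs : Finset Cl) (hLs : (Ls.card : ℝ) ≤ N) (hCs : (Cs.card : ℝ) ≤ C)
    (hcube : ∀ c x, cube c x → agree (lab c) x)
    (hstep : ∀ k, ∀ ρ ∈ Ls, ∀ S ∈ 𝒮₀, Has k ρ S → ∃ Θ : X → Cl,
      (∀ x, agree ρ x → cube (Θ x) x ∧ Θ x ∈ Cs ∧ lab (Θ x) ∈ Ls) ∧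
      (∀ x x', agree ρ x → agree ρ x' → cube (Θ x) x' → Θ x' = Θ x) ∧
      (∀ x, agree ρ x → leaf (Θ x) → LeafOK S (Θ x)) ∧
      (∀ x, agree ρ x → ¬ leaf (Θ x) → ¬ deep (lab (Θ x)) →
        ∃ k', k = k' + 1 ∧ Has k' (lab (Θ x)) S) ∧
      ∀ 𝒬 : Finset L, (∀ w ∈ 𝒬, ∃ x, agree ρ x ∧ lab (Θ x) = w) → (𝒬.card : ℝ) ≤ s)
    (hcert : ∀ c ∈ Cs, leaf c → ∀ (𝒮' : Finset Y) (𝒳' : Finset X),
      (∀ S ∈ 𝒮', S ∈ 𝒮₀ ∧ LeafOK S c) → (∀ x ∈ 𝒳', x ∈ 𝒳 ∧ cube c x) →
      ∑ S ∈ 𝒮', ∑ x ∈ 𝒳', mu S x ≤ γ' * (Fintype.card Y * T))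
    (hdeep : ∀ w ∈ Ls, deep w → ∀ S, ∑ x ∈ univ.filter (fun x => agree w x), mu S x ≤ T * ν)
    (hrect : ∀ (𝒮' : Finset Y) (𝒳' : Finset X),
      -(θ * (Fintype.card Y * T)) ≤ ∑ S ∈ 𝒮', ∑ x ∈ 𝒳', mu S x) :
    ∀ k, ∀ ρ ∈ Ls, ∀ 𝒮 ⊆ 𝒮₀, (∀ S ∈ 𝒮, Has k ρ S) →
      ∑ S ∈ 𝒮, ∑ x ∈ 𝒳.filter (fun x => agree ρ x), mu S x
        ≤ al N (C * γ' + N * ((C + 2) * θ)) k * (Fintype.card Y * T)
          + be s ν k * (𝒮.card * T) := by
  set W : ℝ := Fintype.card Y * T with hW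
  have hW0 : 0 ≤ W := by positivity
  have hC0 : 0 ≤ C := le_trans (Nat.cast_nonneg _) hCs
  have hN0 : 0 ≤ N := by linarith
  have hs0 : 0 ≤ s := by linarith
  set E : ℝ := C * γ' + N * ((C + 2) * θ) with hE
  have hE0 : 0 ≤ E := by positivity
  -- one phase, from bounds `a`, `b` for the labels which are neither leaves nor deep
  have main : ∀ (a b : ℝ), 0 ≤ a → 0 ≤ b → ∀ k, ∀ ρ ∈ Ls, ∀ 𝒮 ⊆ 𝒮₀, (∀ S ∈ 𝒮, Has k ρ S) →
      (∀ w ∈ Ls, ∀ 𝒮' ⊆ 𝒮₀, (∀ S ∈ 𝒮', ∃ k', k = k' + 1 ∧ Has k' w S) →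
        ∑ S ∈ 𝒮', ∑ x ∈ 𝒳.filter (fun x => agree w x), mu S x ≤ a * W + b * (𝒮'.card * T)) →
      ∑ S ∈ 𝒮, ∑ x ∈ 𝒳.filter (fun x => agree ρ x), mu S x
        ≤ (N * a + E) * W + s * (b + ν) * (𝒮.card * T) := by
    intro a b ha hb k ρ hρ 𝒮 h𝒮 hHas hnext
    rcases 𝒮.eq_empty_or_nonempty with h𝒮e | ⟨S₁, hS₁⟩
    · subst h𝒮e
      simp only [sum_empty, card_empty, Nat.cast_zero, zero_mul, mul_zero, add_zero]
      positivity
    have hch : ∀ S, ∃ Θ : X → Cl, S ∈ 𝒮 →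
      (∀ x, agree ρ x → cube (Θ x) x ∧ Θ x ∈ Cs ∧ lab (Θ x) ∈ Ls) ∧
      (∀ x x', agree ρ x → agree ρ x' → cube (Θ x) x' → Θ x' = Θ x) ∧
      (∀ x, agree ρ x → leaf (Θ x) → LeafOK S (Θ x)) ∧
      (∀ x, agree ρ x → ¬ leaf (Θ x) → ¬ deep (lab (Θ x)) →
        ∃ k', k = k' + 1 ∧ Has k' (lab (Θ x)) S) ∧
      ∀ 𝒬 : Finset L, (∀ w ∈ 𝒬, ∃ x, agree ρ x ∧ lab (Θ x) = w) → (𝒬.card : ℝ) ≤ s := by
      intro S
      by_cases hS : S ∈ 𝒮
      · obtain ⟨Θ, hΘ⟩ := hstep k ρ hρ S (h𝒮 hS) (hHas S hS)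
        exact ⟨Θ, fun _ => hΘ⟩
      · obtain ⟨Θ, -⟩ := hstep k ρ hρ S₁ (h𝒮 hS₁) (hHas S₁ hS₁)
        exact ⟨Θ, fun h => absurd h hS⟩
    choose Θ hΘ using hch
    set 𝒳ρ := 𝒳.filter (fun x => agree ρ x) with h𝒳ρ
    have hXρ : ∀ x ∈ 𝒳ρ, agree ρ x := fun x hx => (mem_filter.1 hx).2
    set 𝒮c : Cl → Finset Y := fun c => 𝒮.filter (fun S => ∃ x, agree ρ x ∧ Θ S x = c) with h𝒮c
    set M : Cl → ℝ := fun c => ∑ S ∈ 𝒮c c, ∑ x ∈ 𝒳ρ.filter (fun x => cube c x), mu S x with hM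
    have hdec : ∑ S ∈ 𝒮, ∑ x ∈ 𝒳ρ, mu S x = ∑ c ∈ Cs, M c :=
      classes_sum mu (agree ρ) cube Cs 𝒮 𝒳ρ hXρ Θ
        (fun S hS x hx => ⟨((hΘ S hS).1 x hx).1, ((hΘ S hS).1 x hx).2.1⟩)
        (fun S hS x x' hx hx' h => (hΘ S hS).2.1 x x' hx hx' h)
    -- leaves
    have hleaf : ∀ c ∈ Cs, leaf c → M c ≤ γ' * W := by
      intro c hc hl
      refine hcert c hc hl _ _ ?_ ?_
      · intro S hS
        obtain ⟨hS1, x, hx, hxc⟩ := mem_filter.1 hS
        subst hxc
        exact ⟨h𝒮 hS1, (hΘ S hS1).2.2.1 x hx hl⟩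
      · intro x hx
        obtain ⟨hx1, hx2⟩ := mem_filter.1 hx
        exact ⟨(mem_filter.1 hx1).1, hx2⟩
    -- the other classes, label by label
    set Bw : L → Finset Cl := fun w => Cs.filter (fun c => ¬ leaf c ∧ lab c = w) with hBw
    set 𝒮w : L → Finset Y := fun w => 𝒮.filter (fun S => ∃ x, agree ρ x ∧ Θ S x ∈ Bw w) with h𝒮w
    have hlab : ∀ w ∈ Ls, ∑ c ∈ Bw w, M c
        ≤ a * W + (C + 2) * θ * W + (b + ν) * ((𝒮w w).card * T) := by
      intro w hw
      -- to the whole of the label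
      have hBCs : Bw w ⊆ Cs := filter_subset _ _
      have h1 : ∑ c ∈ Bw w, M c - (C + 1) * (θ * W)
          ≤ ∑ S ∈ 𝒮w w, ∑ x ∈ 𝒳.filter (fun x => agree w x), mu S x := by
        have e1 : ∑ S ∈ 𝒮w w, ∑ x ∈ 𝒳.filter (fun x => agree w x), mu S x
            = ∑ S ∈ 𝒮w w, ∑ x ∈ (𝒳.filter (fun x => agree w x)).filter (fun x => agree ρ x), mu S x
            + ∑ S ∈ 𝒮w w, ∑ x ∈ (𝒳.filter (fun x => agree w x)).filter (fun x => ¬ agree ρ x),
              mu S x := by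
          rw [← sum_add_distrib]
          exact sum_congr rfl fun S _ => (sum_filter_add_sum_filter_not _ _ _).symm
        have e2 := classes_sum mu (agree ρ) cube Cs (𝒮w w)
          ((𝒳.filter (fun x => agree w x)).filter (fun x => agree ρ x))
          (fun x hx => (mem_filter.1 hx).2) Θ
          (fun S hS x hx => ⟨((hΘ S (mem_filter.1 hS).1).1 x hx).1,
            ((hΘ S (mem_filter.1 hS).1).1 x hx).2.1⟩)
          (fun S hS x x' hx hx' h => (hΘ S (mem_filter.1 hS).1).2.1 x x' hx hx' h)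
        have e3 := hrect (𝒮w w) ((𝒳.filter (fun x => agree w x)).filter (fun x => ¬ agree ρ x))
        have e4 : ∑ c ∈ Bw w, M c = ∑ c ∈ Bw w,
            ∑ S ∈ (𝒮w w).filter (fun S => ∃ x, agree ρ x ∧ Θ S x = c),
            ∑ x ∈ ((𝒳.filter (fun x => agree w x)).filter (fun x => agree ρ x)).filter
              (fun x => cube c x), mu S x := by
          refine sum_congr rfl fun c hc => ?_
          obtain ⟨hc1, hc2, hc3⟩ := mem_filter.1 hc
          rw [hM]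
          refine sum_congr ?_ fun S _ => sum_congr ?_ fun _ _ => rfl
          · ext S
            simp only [h𝒮c, h𝒮w, mem_filter]
            constructor
            · rintro ⟨h1, x, hx, rfl⟩
              exact ⟨⟨h1, x, hx, hc⟩, x, hx, rfl⟩
            · rintro ⟨⟨h1, -⟩, h2⟩
              exact ⟨h1, h2⟩
          · ext x
            simp only [h𝒳ρ, mem_filter]
            constructor
            · rintro ⟨⟨h1, h2⟩, h3⟩
              exact ⟨⟨⟨h1, hc3 ▸ hcube c x h3⟩, h2⟩, h3⟩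
            · rintro ⟨⟨⟨h1, -⟩, h2⟩, h3⟩
              exact ⟨⟨h1, h2⟩, h3⟩
        have e5 : -(C * (θ * W)) ≤ ∑ c ∈ Cs \ Bw w,
            ∑ S ∈ (𝒮w w).filter (fun S => ∃ x, agree ρ x ∧ Θ S x = c),
            ∑ x ∈ ((𝒳.filter (fun x => agree w x)).filter (fun x => agree ρ x)).filter
              (fun x => cube c x), mu S x := by
          refine le_trans ?_ (sum_le_sum fun c _ => hrect _ _)
          rw [sum_const, nsmul_eq_mul]
          have h3 : ((Cs \ Bw w).card : ℝ) ≤ C :=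
            le_trans (by exact_mod_cast card_le_card sdiff_subset) hCs
          have h4 : 0 ≤ θ * W := by positivity
          nlinarith
        have e6 := sum_sdiff (f := fun c =>
            ∑ S ∈ (𝒮w w).filter (fun S => ∃ x, agree ρ x ∧ Θ S x = c),
            ∑ x ∈ ((𝒳.filter (fun x => agree w x)).filter (fun x => agree ρ x)).filter
              (fun x => cube c x), mu S x) hBCs
        rw [e1, e2, ← e6, ← e4]
        linarith
      by_cases hd : deep w
      · have h2 : ∑ S ∈ 𝒮w w, ∑ x ∈ 𝒳.filter (fun x => agree w x), mu S x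
            ≤ ν * ((𝒮w w).card * T) + θ * W := by
          have h3 := hrect (𝒮w w) (𝒳ᶜ.filter (fun x => agree w x))
          have h4 : ∀ S, ∑ x ∈ univ.filter (fun x => agree w x), mu S x
              = ∑ x ∈ 𝒳.filter (fun x => agree w x), mu S x
                + ∑ x ∈ 𝒳ᶜ.filter (fun x => agree w x), mu S x := by
            intro S
            rw [← sum_union]
            · congr 1
              ext x
              simp only [mem_filter, mem_union, mem_univ, true_and, mem_compl]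
              tauto
            · rw [disjoint_left]
              intro x hx hx'
              exact (mem_compl.1 (mem_filter.1 hx').1) (mem_filter.1 hx).1
          have h5 : ∑ S ∈ 𝒮w w, ∑ x ∈ univ.filter (fun x => agree w x), mu S x
              ≤ (𝒮w w).card * (T * ν) := by
            rw [← nsmul_eq_mul]
            exact sum_le_card_nsmul _ _ _ fun S _ => hdeep w hw hd S
          rw [sum_congr rfl fun S _ => h4 S, sum_add_distrib] at h5
          linarith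
        have h6 : 0 ≤ a * W := by positivity
        have h7 : 0 ≤ b * ((𝒮w w).card * T) := by positivity
        linarith
      · have h2 := hnext w hw (𝒮w w) ((filter_subset _ _).trans h𝒮) (by
          intro S hS
          obtain ⟨hS1, x, hx, hxB⟩ := mem_filter.1 hS
          obtain ⟨-, hx2, hx3⟩ := mem_filter.1 hxB
          have := (hΘ S hS1).2.2.2.1 x hx hx2 (by rw [hx3]; exact hd)
          rwa [hx3] at this)
        have h6 : 0 ≤ θ * W := by positivity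
        have h7 : 0 ≤ ν * ((𝒮w w).card * T) := by positivity
        linarith
    -- all the labels
    have hcount : ∑ w ∈ Ls, ((𝒮w w).card : ℝ) ≤ s * 𝒮.card := by
      have e1 : ∀ w, ((𝒮w w).card : ℝ)
          = ∑ S ∈ 𝒮, if ∃ x, agree ρ x ∧ Θ S x ∈ Bw w then 1 else 0 := by
        intro w
        rw [card_filter]
        push_cast
        rfl
      rw [sum_congr rfl fun w _ => e1 w, sum_comm]
      have e2 : ∀ S ∈ 𝒮, (∑ w ∈ Ls, if ∃ x, agree ρ x ∧ Θ S x ∈ Bw w then (1 : ℝ) else 0) ≤ s := by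
        intro S hS
        have h3 := (hΘ S hS).2.2.2.2 (Ls.filter (fun w => ∃ x, agree ρ x ∧ Θ S x ∈ Bw w)) (by
          intro w hw
          obtain ⟨-, x, hx, hxB⟩ := mem_filter.1 hw
          exact ⟨x, hx, (mem_filter.1 hxB).2.2⟩)
        rw [card_filter] at h3
        push_cast at h3
        exact h3
      calc _ ≤ ∑ S ∈ 𝒮, s := sum_le_sum e2
        _ = s * 𝒮.card := by
          rw [sum_const, nsmul_eq_mul]
          ring
    have hnl : ∑ c ∈ Cs.filter (fun c => ¬ leaf c), M c = ∑ w ∈ Ls, ∑ c ∈ Bw w, M c := by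
      have e1 : ∑ c ∈ Cs.filter (fun c => ¬ leaf c), M c
          = ∑ c ∈ (Cs.filter (fun c => ¬ leaf c)).filter (fun c => lab c ∈ Ls), M c := by
        symm
        refine sum_subset (filter_subset _ _) fun c hc hc' => ?_
        have hc2 : lab c ∉ Ls := fun h => hc' (mem_filter.2 ⟨hc, h⟩)
        rw [hM]
        refine sum_eq_zero fun S hS => ?_
        obtain ⟨hS1, x, hx, hxc⟩ := mem_filter.1 hS
        exact absurd (hxc ▸ ((hΘ S hS1).1 x hx).2.2) hc2
      rw [e1, ← sum_fiberwise_of_maps_to (t := Ls) (g := lab)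
        (fun c hc => (mem_filter.1 hc).2)]
      refine sum_congr rfl fun w hw => sum_congr ?_ fun _ _ => rfl
      ext c
      simp only [hBw, mem_filter]
      constructor
      · rintro ⟨⟨⟨h1, h2⟩, -⟩, h3⟩
        exact ⟨h1, h2, h3⟩
      · rintro ⟨h1, h2, h3⟩
        exact ⟨⟨⟨h1, h2⟩, h3 ▸ hw⟩, h3⟩
    have hl : ∑ c ∈ Cs.filter (fun c => leaf c), M c ≤ C * (γ' * W) := by
      calc _ ≤ ∑ c ∈ Cs.filter (fun c => leaf c), γ' * W :=
            sum_le_sum fun c hc => hleaf c (mem_filter.1 hc).1 (mem_filter.1 hc).2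
        _ = (Cs.filter (fun c => leaf c)).card * (γ' * W) := by
            rw [sum_const, nsmul_eq_mul]
        _ ≤ C * (γ' * W) := by
            have h3 : ((Cs.filter (fun c => leaf c)).card : ℝ) ≤ C :=
              le_trans (by exact_mod_cast card_le_card (filter_subset _ _)) hCs
            have h4 : 0 ≤ γ' * W := by positivity
            nlinarith
    have hw : ∑ w ∈ Ls, ∑ c ∈ Bw w, M c
        ≤ N * (a * W + (C + 2) * θ * W) + (b + ν) * (s * 𝒮.card * T) := by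
      calc _ ≤ ∑ w ∈ Ls, (a * W + (C + 2) * θ * W + (b + ν) * ((𝒮w w).card * T)) :=
            sum_le_sum hlab
        _ = Ls.card * (a * W + (C + 2) * θ * W)
            + (b + ν) * ((∑ w ∈ Ls, ((𝒮w w).card : ℝ)) * T) := by
            rw [sum_add_distrib, sum_const, nsmul_eq_mul, sum_mul, mul_sum]
        _ ≤ _ := by
            have h3 : 0 ≤ a * W + (C + 2) * θ * W := by positivity
            have h4 : (∑ w ∈ Ls, ((𝒮w w).card : ℝ)) * T ≤ s * 𝒮.card * T :=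
              mul_le_mul_of_nonneg_right hcount hT
            have h5 := mul_le_mul_of_nonneg_right hLs h3
            have h6 := mul_le_mul_of_nonneg_left h4 (add_nonneg hb hν)
            linarith
    rw [hdec, ← sum_filter_add_sum_filter_not Cs (fun c => leaf c), hnl]
    calc _ ≤ C * (γ' * W) + (N * (a * W + (C + 2) * θ * W) + (b + ν) * (s * 𝒮.card * T)) :=
          add_le_add hl hw
      _ = _ := by
          rw [hE]
          ring
  intro k
  induction k with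
  | zero =>
    intro ρ hρ 𝒮 h𝒮 hHas
    have h1 := main 0 0 le_rfl le_rfl 0 ρ hρ 𝒮 h𝒮 hHas (by
      intro w _ 𝒮' _ h
      have h2 : 𝒮' = ∅ := by
        rw [eq_empty_iff_forall_notMem]
        intro S hS
        obtain ⟨k', hk', -⟩ := h S hS
        omega
      subst h2
      simp)
    rw [al_zero, be_zero]
    simpa using h1
  | succ k ih =>
    intro ρ hρ 𝒮 h𝒮 hHas
    have h1 := main (al N E k) (be s ν k) (al_nonneg hN0 hE0 k) (be_nonneg hs0 hν k) (k + 1) ρ hρ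
      𝒮 h𝒮 hHas (by
      intro w hw 𝒮' h𝒮' h
      refine ih w hw 𝒮' h𝒮' fun S hS => ?_
      obtain ⟨k', hk', h2⟩ := h S hS
      have : k = k' := by omega
      exact this ▸ h2)
    refine h1.trans (add_le_add ?_ ?_)
    · exact mul_le_mul_of_nonneg_right (al_succ hN hE0 k) hW0
    · exact mul_le_mul_of_nonneg_right (be_succ hs hν k) (by positivity)

end

end AVD
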