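import Pool.Agent.AVD.Adversary

/-!
# AVD: few rows are refuted by a search dag of any rank
-/

set_option autoImplicit false

open scoped BigOperators

namespace AVD

open Finset SDX BB

/-- The walk: a closed set of labels contains the label of a leaf. -/
theorem leaf_of_closed {n J len : ℕ} {label : Fin len → Fin n → Option Bool}
    {rank : Fin len → ℕ} {move : Fin len → Fin J ⊕ (Fin n × (Bool → Fin len))}
    (hR : ∀ u v c, move u = .inr (v, c) → ∀ a, rank (c a) < rank u ∧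
      ∀ w x, label (c a) w = some x → Function.update (label u) v (some a) w = some x)
    (𝓖 : Set (Fin n → Option Bool))
    (hcl : ∀ ρ ∈ 𝓖, ∀ v, ∃ a : Bool, ∀ u,
      (∀ w, label u w = none ∨ label u w = Function.update ρ v (some a) w) → label u ∈ 𝓖) :
    ∀ (r : ℕ) (u : Fin len), rank u ≤ r → label u ∈ 𝓖 → ∃ u' j, move u' = .inl j ∧
      label u' ∈ 𝓖 := by
  intro r
  induction r with
  | zero =>
    intro u hu hmem
    rcases h : move u with j | ⟨v, c⟩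
    · exact ⟨u, j, h, hmem⟩
    · have := (hR u v c h true).1
      omega
  | succ r ih =>
    intro u hu hmem
    rcases h : move u with j | ⟨v, c⟩
    · exact ⟨u, j, h, hmem⟩
    · obtain ⟨a, ha⟩ := hcl _ hmem v
      obtain ⟨h1, h2⟩ := hR u v c h a
      refine ih (c a) (by omega) (ha _ fun w => ?_)
      rcases h3 : label (c a) w with _ | x
      · exact Or.inl rfl
      · exact Or.inr (h2 w x h3).symm

open Classical in
/-- **Few rows are refuted.** -/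
theorem few_rows {n m b J : ℕ} (e : Fin m × Fin b ↪ Fin n) (hn : n ≤ m * b + 3 * b)
    (z : Fin n → Bool) (d₀ : ℕ) (mu : (Fin m → Fin b) → (Fin m × Fin b → Bool) → ℝ)
    (γ' c ε : ℝ) (hγ' : 0 ≤ γ') (hd₀ : 3 * b < d₀)
    (hlocal : 2 ^ (d₀ + 1) * γ' * ((((Finset.univ : Finset (Fin n → Option Bool)).filter fun ρ =>
      (dom ρ).card ≤ d₀).card : ℝ) * Real.exp (c * n)) ≤ Real.exp (-(2 * (c * n))))
    (heps : 2 ^ m * 2 ^ (3 * b) * 2 ^ (d₀ + 1) * Real.exp (-(ε * n)) ≤ 1)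
    (hpoint : ∀ S x, |mu S x| ≤ 2 ^ m)
    (hnarrow : ∀ (S : Fin m → Fin b) (F : Finset (Fin m × Fin b)) (a : Fin m × Fin b → Bool),
      F.card ≤ 2 * d₀ + 1 → ∑ x, ind F a x * mu S x = 0 ∨
        2 ^ (m * b) ≤ 2 ^ F.card * ∑ x, ind F a x * mu S x)
    (hkill : ∀ (S : Fin m → Fin b)
      (𝓛 : Finset (Finset (Fin m × Fin b) × (Fin m × Fin b → Bool))),
      (𝓛.card : ℝ) ≤ Real.exp (c * n) → (∀ l ∈ 𝓛, d₀ ≤ l.1.card + 3 * b) →
      ∃ (F : Finset (Fin m × Fin b)) (a : Fin m × Fin b → Bool), F.card ≤ d₀ ∧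
        0 < ∑ x, ind F a x * mu S x ∧ ∀ l ∈ 𝓛, ∃ q ∈ l.1, q ∈ F ∧ l.2 q ≠ a q)
    (hJ : (J : ℝ) ≤ Real.exp (c * n))
    (𝒳 : Finset (Fin m × Fin b → Bool))
    (h𝒳 : ((𝒳ᶜ).card : ℝ) ≤ Real.exp (-(ε * n)) * 2 ^ n)
    (Bad : (Fin m → Fin b) → (Fin n → Option Bool) → Fin J → Prop)
    (hcert : ∀ ρ j (𝓑 : Finset (Fin m → Fin b)), (∀ S ∈ 𝓑, Bad S ρ j) →
      ∑ S ∈ 𝓑, ∑ x ∈ 𝒳.filter (fun x => Agr e z ρ x), mu S x
        ≤ γ' * ((b : ℝ) ^ m * 2 ^ (m * b)))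
    (𝒮 : Finset (Fin m → Fin b))
    (h𝒮 : ∀ S ∈ 𝒮, ∃ (len : ℕ) (label : Fin len → Fin n → Option Bool) (rank : Fin len → ℕ)
      (move : Fin len → Fin J ⊕ (Fin n × (Bool → Fin len))) (root : Fin len),
      (len : ℝ) ≤ Real.exp (c * n) ∧ label root = (fun _ => none) ∧
      (∀ u v c, move u = .inr (v, c) → ∀ a, rank (c a) < rank u ∧
        ∀ w x, label (c a) w = some x → Function.update (label u) v (some a) w = some x) ∧
      ∀ u j, move u = .inl j → Bad S (label u) j) :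
    (𝒮.card : ℝ) ≤ Real.exp (-(2 * (c * n))) * (b : ℝ) ^ m := by
  set Nd : Finset (Fin n → Option Bool) := univ.filter fun ρ => (dom ρ).card ≤ d₀ with hNd
  set mass : (Fin m → Fin b) → (Fin n → Option Bool) → ℝ := fun S ρ =>
    ∑ x, if Agr e z ρ x then mu S x else 0 with hmass
  -- one label and one relaxation
  have hone : ∀ ρ j (𝓑 : Finset (Fin m → Fin b)), (∀ S ∈ 𝓑, Bad S ρ j ∧
      2 ^ (m * b) ≤ 2 ^ d₀ * mass S ρ) → (𝓑.card : ℝ) ≤ 2 ^ (d₀ + 1) * γ' * (b : ℝ) ^ m := by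
    intro ρ j 𝓑 h𝓑
    have h1 := hcert ρ j 𝓑 fun S hS => (h𝓑 S hS).1
    have h2 : ∀ S ∈ 𝓑, (2 : ℝ) ^ (m * b) / 2 ^ (d₀ + 1)
        ≤ ∑ x ∈ 𝒳.filter (fun x => Agr e z ρ x), mu S x := by
      intro S hS
      have h3 := (h𝓑 S hS).2
      have h4 : mass S ρ = ∑ x ∈ 𝒳.filter (fun x => Agr e z ρ x), mu S x
          + ∑ x ∈ 𝒳ᶜ.filter (fun x => Agr e z ρ x), mu S x := by
        simp only [hmass]
        rw [sum_filter, sum_filter, sum_add_sum_compl]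
      have h5 : ∑ x ∈ 𝒳ᶜ.filter (fun x => Agr e z ρ x), mu S x
          ≤ (Real.exp (-(ε * n)) * 2 ^ n) * 2 ^ m := by
        calc ∑ x ∈ 𝒳ᶜ.filter (fun x => Agr e z ρ x), mu S x
            ≤ ∑ x ∈ 𝒳ᶜ.filter (fun x => Agr e z ρ x), (2 : ℝ) ^ m :=
              sum_le_sum fun x _ => (le_abs_self _).trans (hpoint S x)
          _ = ((𝒳ᶜ.filter (fun x => Agr e z ρ x)).card : ℝ) * 2 ^ m := by
              rw [sum_const, nsmul_eq_mul]
          _ ≤ (Real.exp (-(ε * n)) * 2 ^ n) * 2 ^ m := by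
              refine mul_le_mul_of_nonneg_right ?_ (by positivity)
              refine le_trans ?_ h𝒳
              exact_mod_cast card_le_card (filter_subset _ _)
      have h6 : (Real.exp (-(ε * n)) * 2 ^ n) * 2 ^ m ≤ (2 : ℝ) ^ (m * b) / 2 ^ (d₀ + 1) := by
        rw [le_div_iff₀ (by positivity)]
        have h7 : (2 : ℝ) ^ n ≤ 2 ^ (m * b) * 2 ^ (3 * b) := by
          rw [← pow_add]
          exact pow_le_pow_right₀ (by norm_num) hn
        calc Real.exp (-(ε * n)) * 2 ^ n * 2 ^ m * 2 ^ (d₀ + 1)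
            ≤ Real.exp (-(ε * n)) * (2 ^ (m * b) * 2 ^ (3 * b)) * 2 ^ m * 2 ^ (d₀ + 1) := by
              gcongr
          _ = 2 ^ (m * b) * (2 ^ m * 2 ^ (3 * b) * 2 ^ (d₀ + 1) * Real.exp (-(ε * n))) := by
              ring
          _ ≤ 2 ^ (m * b) * 1 := by gcongr
          _ = 2 ^ (m * b) := mul_one _
      have h8 : (2 : ℝ) ^ (m * b) / 2 ^ (d₀ + 1) * 2 ≤ mass S ρ := by
        rw [div_mul_eq_mul_div, div_le_iff₀ (by positivity), pow_succ]
        linarith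
      linarith
    have h9 : (𝓑.card : ℝ) * ((2 : ℝ) ^ (m * b) / 2 ^ (d₀ + 1))
        ≤ γ' * ((b : ℝ) ^ m * 2 ^ (m * b)) := by
      refine le_trans ?_ h1
      rw [← nsmul_eq_mul, ← sum_const]
      exact sum_le_sum h2
    have h10 : (0 : ℝ) < 2 ^ (m * b) := by positivity
    have h11 : (0 : ℝ) < 2 ^ (d₀ + 1) := by positivity
    rw [mul_div_assoc', div_le_iff₀ h11] at h9
    have h12 : (𝓑.card : ℝ) * 2 ^ (m * b)
        ≤ 2 ^ (d₀ + 1) * γ' * (b : ℝ) ^ m * 2 ^ (m * b) := by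
      linarith
    exact le_of_mul_le_mul_right h12 h10
  -- the rows of `𝒮`
  have hsub : 𝒮 ⊆ (Nd ×ˢ (univ : Finset (Fin J))).biUnion fun q =>
      univ.filter fun S => Bad S q.1 q.2 ∧ 2 ^ (m * b) ≤ 2 ^ d₀ * mass S q.1 := by
    intro S hS
    obtain ⟨len, label, rank, move, root, hlen, hroot, hR, hleaf⟩ := h𝒮 S hS
    obtain ⟨𝓖, h0, h1, h2⟩ := adversary e hn z (mu S) d₀ hd₀ (Real.exp (c * n)) (hnarrow S)
      (hkill S) (univ.image label) (by
        refine le_trans ?_ hlen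
        have := card_image_le (s := (univ : Finset (Fin len))) (f := label)
        rw [card_univ, Fintype.card_fin] at this
        exact_mod_cast this)
    obtain ⟨u, j, hu, hmem⟩ := leaf_of_closed hR 𝓖 (fun ρ hρ v => by
      obtain ⟨a, ha⟩ := h2 ρ hρ v
      exact ⟨a, fun u hu => ha _ (mem_image_of_mem label (mem_univ u)) hu⟩) (rank root) root
      le_rfl (by rw [hroot]; exact h0)
    obtain ⟨h3, h4⟩ := h1 _ hmem
    rw [mem_biUnion]
    refine ⟨(label u, j), mem_product.2 ⟨mem_filter.2 ⟨mem_univ _, h3⟩, mem_univ _⟩,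
      mem_filter.2 ⟨mem_univ _, hleaf u j hu, ?_⟩⟩
    exact h4
  have hNd0 : (0 : ℝ) ≤ Nd.card := Nat.cast_nonneg _
  calc (𝒮.card : ℝ) ≤ (((Nd ×ˢ (univ : Finset (Fin J))).biUnion fun q =>
      univ.filter fun S => Bad S q.1 q.2 ∧ 2 ^ (m * b) ≤ 2 ^ d₀ * mass S q.1).card : ℝ) := by
        exact_mod_cast card_le_card hsub
    _ ≤ ∑ q ∈ Nd ×ˢ (univ : Finset (Fin J)), (((univ : Finset (Fin m → Fin b)).filter fun S =>
          Bad S q.1 q.2 ∧ 2 ^ (m * b) ≤ 2 ^ d₀ * mass S q.1).card : ℝ) := by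
        exact_mod_cast card_biUnion_le
    _ ≤ ∑ _q ∈ Nd ×ˢ (univ : Finset (Fin J)), 2 ^ (d₀ + 1) * γ' * (b : ℝ) ^ m :=
        sum_le_sum fun q _ => hone q.1 q.2 _ fun S hS => (mem_filter.1 hS).2
    _ = (Nd.card * J) * (2 ^ (d₀ + 1) * γ' * (b : ℝ) ^ m) := by
        rw [sum_const, nsmul_eq_mul, card_product, card_univ, Fintype.card_fin, Nat.cast_mul]
    _ ≤ (Nd.card * Real.exp (c * n)) * (2 ^ (d₀ + 1) * γ' * (b : ℝ) ^ m) := by
        refine mul_le_mul_of_nonneg_right (mul_le_mul_of_nonneg_left hJ hNd0) (by positivity)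
    _ = 2 ^ (d₀ + 1) * γ' * (Nd.card * Real.exp (c * n)) * (b : ℝ) ^ m := by ring
    _ ≤ Real.exp (-(2 * (c * n))) * (b : ℝ) ^ m := mul_le_mul_of_nonneg_right hlocal (by positivity)

end AVD
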